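/-
Matrices of the tables and a kernel-checkable test for identities between their products.
-/
import Pool.Agent.Run7.h433.Nak.Tab

set_option autoImplicit false

namespace Run7.h433.Nak

/-- Index set of the basis of `RR`. -/
abbrev I := Fin 128

/-- coefficient of the index `i` in a row -/
def cf : Row → ℕ → ℤ
  | [], _ => 0
  | p :: l, i => (if p.2 = i then p.1 else 0) + cf l i

/-- the matrix of the table number `n`: the column `j` is the row `j` of the table -/
def mt (n : ℕ) : Matrix I I ℚ := fun i j => ((cf (row n j) i : ℤ) : ℚ)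

/-- apply the word of tables (the last one first) to a formal sum -/
def rowW : List ℕ → Row → Row
  | [], l => l
  | n :: w, l => (rowW w l).flatMap fun p => (row n p.2).map fun q => (p.1 * q.1, q.2)

/-- linear combinations of words of tables -/
abbrev Comb := List (ℤ × List ℕ)

/-- value on the basis element `j` -/
def rowC (c : Comb) (j : ℕ) : Row := c.flatMap fun p => rowW p.2 [(p.1, j)]

/-- zero test -/
def zchk (l : Row) : Bool := l.all fun p => cf l p.2 == 0

/-- zero test for a combination -/
def chk (c : Comb) : Bool := (List.range 128).all fun j => zchk (rowC c j)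

/-- evaluation of a combination -/
def evC (c : Comb) : Matrix I I ℚ := (c.map fun p => (p.1 : ℚ) • (p.2.map mt).prod).sum

theorem rows_ok : ((List.range 16).all fun n => (List.range 128).all fun j =>
    (row n j).all fun p => Nat.blt p.2 128) = true := by decide +kernel

theorem tabN_big (n : ℕ) (h : 16 ≤ n) : tabN n = 0 := by
  unfold tabN
  split <;> first | rfl | omega

theorem row_big (n j : ℕ) (h : 16 ≤ n) : row n j = [] := by
  unfold row
  rw [tabN_big n h]
  simp [decR]

theorem row_lt (n j : ℕ) (hj : j < 128) (p : ℤ × ℕ) (hp : p ∈ row n j) : p.2 < 128 := by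
  by_cases hn : n < 16
  · have h := rows_ok
    rw [List.all_eq_true] at h
    have h1 := h n (List.mem_range.2 hn)
    rw [List.all_eq_true] at h1
    have h2 := h1 j (List.mem_range.2 hj)
    rw [List.all_eq_true] at h2
    have h3 := h2 p hp
    simpa [Nat.blt] using h3
  · rw [row_big n j (by omega)] at hp
    simp at hp

theorem rowW_lt (w : List ℕ) (l : Row) (hl : ∀ p ∈ l, p.2 < 128) : ∀ p ∈ rowW w l, p.2 < 128 := by
  induction w with
  | nil => exact hl
  | cons n w ih =>
    intro p hp
    rw [rowW, List.mem_flatMap] at hp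
    obtain ⟨q, hq, hp⟩ := hp
    rw [List.mem_map] at hp
    obtain ⟨r, hr, rfl⟩ := hp
    exact row_lt n q.2 (ih q hq) r hr

theorem cf_append (l m : Row) (i : ℕ) : cf (l ++ m) i = cf l i + cf m i := by
  induction l with
  | nil => simp [cf]
  | cons p l ih => simp [cf, ih, add_assoc]

theorem cf_map_mul (l : Row) (c : ℤ) (i : ℕ) :
    cf (l.map fun q => (c * q.1, q.2)) i = c * cf l i := by
  induction l with
  | nil => simp [cf]
  | cons p l ih =>
    rw [List.map_cons, cf, ih, cf, mul_add]
    congr 1
    by_cases h : p.2 = i <;> simp [h]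

theorem cf_eq_zero (l : Row) (h : zchk l = true) (i : ℕ) : cf l i = 0 := by
  by_cases hm : ∃ p ∈ l, p.2 = i
  · obtain ⟨p, hp, rfl⟩ := hm
    rw [zchk, List.all_eq_true] at h
    simpa using h p hp
  · push Not at hm
    clear h
    induction l with
    | nil => rfl
    | cons p l ih =>
      rw [cf, ih (fun q hq => hm q (by simp [hq])), if_neg (hm p (by simp))]
      rfl

theorem cf_flatMap (l : Row) (hl : ∀ p ∈ l, p.2 < 128) (n i : ℕ) :
    cf (l.flatMap fun p => (row n p.2).map fun q => (p.1 * q.1, q.2)) i =
      ∑ k : I, cf (row n k) i * cf l k := by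
  induction l with
  | nil => simp [cf]
  | cons p l ih =>
    rw [List.flatMap_cons, cf_append, cf_map_mul, ih (fun q hq => hl q (by simp [hq]))]
    have hp : p.2 < 128 := hl p (by simp)
    have h1 : ∀ k : I, cf (row n k) i * cf (p :: l) k =
        (if (⟨p.2, hp⟩ : I) = k then cf (row n k) i * p.1 else 0) + cf (row n k) i * cf l k := by
      intro k
      rw [cf, mul_add]
      congr 1
      by_cases h : p.2 = (k : ℕ)
      · rw [if_pos h, if_pos (Fin.ext h)]
      · rw [if_neg h, if_neg (fun h' => h (congrArg Fin.val h')), mul_zero]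
    simp_rw [h1]
    rw [Finset.sum_add_distrib, Finset.sum_ite_eq Finset.univ (⟨p.2, hp⟩ : I)]
    simp [mul_comm]

theorem prod_apply (w : List ℕ) (c : ℤ) (i j : I) :
    ((cf (rowW w [(c, (j : ℕ))]) i : ℤ) : ℚ) = (c : ℚ) * (w.map mt).prod i j := by
  induction w generalizing i with
  | nil =>
    rw [rowW, cf, cf]
    simp only [List.map_nil, List.prod_nil, Matrix.one_apply, add_zero]
    by_cases h : j = i
    · subst h; simp
    · have h1 : ¬ ((j : ℕ) = i) := fun h' => h (Fin.ext h')
      simp [h1, Ne.symm h]
  | cons n w ih =>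
    rw [rowW, cf_flatMap _ (rowW_lt w _ (by simp)), List.map_cons, List.prod_cons,
      Matrix.mul_apply, Finset.mul_sum]
    push_cast
    refine Finset.sum_congr rfl fun k _ => ?_
    rw [ih]
    simp only [mt]
    ring

/-- The main tool. -/
theorem evC_eq_zero (c : Comb) (h : chk c = true) : evC c = 0 := by
  ext i j
  have key : ∀ c : Comb, ((cf (rowC c j) i : ℤ) : ℚ) = evC c i j := by
    intro c
    induction c with
    | nil => simp [rowC, cf, evC]
    | cons p c ih =>
      have h1 : rowC (p :: c) j = rowW p.2 [(p.1, (j : ℕ))] ++ rowC c j := by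
        simp [rowC]
      have h2 : evC (p :: c) = (p.1 : ℚ) • (p.2.map mt).prod + evC c := by
        simp [evC]
      rw [h1, h2, cf_append, Matrix.add_apply, Matrix.smul_apply, ← ih]
      push_cast
      rw [prod_apply, smul_eq_mul]
  rw [← key c]
  rw [chk, List.all_eq_true] at h
  rw [cf_eq_zero _ (h j (List.mem_range.2 j.isLt))]
  simp

end Run7.h433.Nak
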