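/-
Kernel-checked relations between the operators of the algebra `RR`.
`mA, mB, mZ, mF, mX, mY1, mY2` are the right multiplications by `alpha, beta, zeta, phi, chi, y1,
y2`; a product of right multiplications applies the LAST factor first, so `mX * mF * mB` is the
right multiplication by `beta phi chi`.  `lm g` are the left multiplications (same order), `dA` and
`dZ` the contractions.
-/
import Pool.Agent.Run7.h433.Nak.Mat

set_option autoImplicit false
set_option linter.unusedSimpArgs false

namespace Run7.h433.Nak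

/-- right multiplication by the generator number `g` -/
abbrev rm (g : Fin 7) : Matrix I I ℚ := mt g
/-- left multiplication by the generator number `g` -/
abbrev lm (g : Fin 7) : Matrix I I ℚ := mt (7 + g)
/-- right multiplication by `alpha` -/
def mA : Matrix I I ℚ := mt 0
/-- right multiplication by `beta` -/
def mB : Matrix I I ℚ := mt 1
/-- right multiplication by `zeta` -/
def mZ : Matrix I I ℚ := mt 2
/-- right multiplication by `phi` -/
def mF : Matrix I I ℚ := mt 3
/-- right multiplication by `chi` -/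
def mX : Matrix I I ℚ := mt 4
/-- right multiplication by `y1` -/
def mY1 : Matrix I I ℚ := mt 5
/-- right multiplication by `y2` -/
def mY2 : Matrix I I ℚ := mt 6
/-- contraction against right multiplication by `alpha` -/
def dA : Matrix I I ℚ := mt 14
/-- contraction against right multiplication by `zeta` -/
def dZ : Matrix I I ℚ := mt 15

theorem rel_AA : mA * mA = 0 := by
  have h := evC_eq_zero [(1, [0, 0])] (by decide +kernel)
  simp only [evC, List.map_cons, List.map_nil, List.prod_cons, List.prod_nil, List.sum_cons,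
    List.sum_nil, mul_one, add_zero, Int.cast_one, Int.cast_neg, one_smul, neg_smul,
    Int.cast_ofNat] at h
  simp only [mA, mB, mZ, mF, mX, mY1, mY2, dA, dZ, mul_assoc]
  rw [← sub_eq_zero]
  refine Eq.trans ?_ h
  abel

theorem rel_BB : mB * mB = 0 := by
  have h := evC_eq_zero [(1, [1, 1])] (by decide +kernel)
  simp only [evC, List.map_cons, List.map_nil, List.prod_cons, List.prod_nil, List.sum_cons,
    List.sum_nil, mul_one, add_zero, Int.cast_one, Int.cast_neg, one_smul, neg_smul,
    Int.cast_ofNat] at h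
  simp only [mA, mB, mZ, mF, mX, mY1, mY2, dA, dZ, mul_assoc]
  rw [← sub_eq_zero]
  refine Eq.trans ?_ h
  abel

theorem rel_FF : mF * mF = 0 := by
  have h := evC_eq_zero [(1, [3, 3])] (by decide +kernel)
  simp only [evC, List.map_cons, List.map_nil, List.prod_cons, List.prod_nil, List.sum_cons,
    List.sum_nil, mul_one, add_zero, Int.cast_one, Int.cast_neg, one_smul, neg_smul,
    Int.cast_ofNat] at h
  simp only [mA, mB, mZ, mF, mX, mY1, mY2, dA, dZ, mul_assoc]
  rw [← sub_eq_zero]
  refine Eq.trans ?_ h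
  abel

theorem rel_XX : mX * mX = 0 := by
  have h := evC_eq_zero [(1, [4, 4])] (by decide +kernel)
  simp only [evC, List.map_cons, List.map_nil, List.prod_cons, List.prod_nil, List.sum_cons,
    List.sum_nil, mul_one, add_zero, Int.cast_one, Int.cast_neg, one_smul, neg_smul,
    Int.cast_ofNat] at h
  simp only [mA, mB, mZ, mF, mX, mY1, mY2, dA, dZ, mul_assoc]
  rw [← sub_eq_zero]
  refine Eq.trans ?_ h
  abel

theorem rel_ZZ : mZ * mZ = -(mA * mX * mF * mB) := by
  have h := evC_eq_zero [(1, [2, 2]), (1, [0, 4, 3, 1])] (by decide +kernel)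
  simp only [evC, List.map_cons, List.map_nil, List.prod_cons, List.prod_nil, List.sum_cons,
    List.sum_nil, mul_one, add_zero, Int.cast_one, Int.cast_neg, one_smul, neg_smul,
    Int.cast_ofNat] at h
  simp only [mA, mB, mZ, mF, mX, mY1, mY2, dA, dZ, mul_assoc]
  rw [← sub_eq_zero]
  refine Eq.trans ?_ h
  abel

theorem rel_BA : mB * mA = -(mA * mB) := by
  have h := evC_eq_zero [(1, [1, 0]), (1, [0, 1])] (by decide +kernel)
  simp only [evC, List.map_cons, List.map_nil, List.prod_cons, List.prod_nil, List.sum_cons,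
    List.sum_nil, mul_one, add_zero, Int.cast_one, Int.cast_neg, one_smul, neg_smul,
    Int.cast_ofNat] at h
  simp only [mA, mB, mZ, mF, mX, mY1, mY2, dA, dZ, mul_assoc]
  rw [← sub_eq_zero]
  refine Eq.trans ?_ h
  abel

theorem rel_FA : mF * mA = -(mA * mF) := by
  have h := evC_eq_zero [(1, [3, 0]), (1, [0, 3])] (by decide +kernel)
  simp only [evC, List.map_cons, List.map_nil, List.prod_cons, List.prod_nil, List.sum_cons,
    List.sum_nil, mul_one, add_zero, Int.cast_one, Int.cast_neg, one_smul, neg_smul,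
    Int.cast_ofNat] at h
  simp only [mA, mB, mZ, mF, mX, mY1, mY2, dA, dZ, mul_assoc]
  rw [← sub_eq_zero]
  refine Eq.trans ?_ h
  abel

theorem rel_XA : mX * mA = -(mA * mX) - mF * mB := by
  have h := evC_eq_zero [(1, [4, 0]), (1, [0, 4]), (1, [3, 1])] (by decide +kernel)
  simp only [evC, List.map_cons, List.map_nil, List.prod_cons, List.prod_nil, List.sum_cons,
    List.sum_nil, mul_one, add_zero, Int.cast_one, Int.cast_neg, one_smul, neg_smul,
    Int.cast_ofNat] at h
  simp only [mA, mB, mZ, mF, mX, mY1, mY2, dA, dZ, mul_assoc]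
  rw [← sub_eq_zero]
  refine Eq.trans ?_ h
  abel

theorem rel_ZA : mZ * mA = -(mA * mZ) := by
  have h := evC_eq_zero [(1, [2, 0]), (1, [0, 2])] (by decide +kernel)
  simp only [evC, List.map_cons, List.map_nil, List.prod_cons, List.prod_nil, List.sum_cons,
    List.sum_nil, mul_one, add_zero, Int.cast_one, Int.cast_neg, one_smul, neg_smul,
    Int.cast_ofNat] at h
  simp only [mA, mB, mZ, mF, mX, mY1, mY2, dA, dZ, mul_assoc]
  rw [← sub_eq_zero]
  refine Eq.trans ?_ h
  abel

theorem rel_FB : mB * mF = -(mF * mB) := by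
  have h := evC_eq_zero [(1, [1, 3]), (1, [3, 1])] (by decide +kernel)
  simp only [evC, List.map_cons, List.map_nil, List.prod_cons, List.prod_nil, List.sum_cons,
    List.sum_nil, mul_one, add_zero, Int.cast_one, Int.cast_neg, one_smul, neg_smul,
    Int.cast_ofNat] at h
  simp only [mA, mB, mZ, mF, mX, mY1, mY2, dA, dZ, mul_assoc]
  rw [← sub_eq_zero]
  refine Eq.trans ?_ h
  abel

theorem rel_XB : mB * mX = -(mX * mB) := by
  have h := evC_eq_zero [(1, [1, 4]), (1, [4, 1])] (by decide +kernel)
  simp only [evC, List.map_cons, List.map_nil, List.prod_cons, List.prod_nil, List.sum_cons,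
    List.sum_nil, mul_one, add_zero, Int.cast_one, Int.cast_neg, one_smul, neg_smul,
    Int.cast_ofNat] at h
  simp only [mA, mB, mZ, mF, mX, mY1, mY2, dA, dZ, mul_assoc]
  rw [← sub_eq_zero]
  refine Eq.trans ?_ h
  abel

theorem rel_FX : mF * mX = -(mX * mF) := by
  have h := evC_eq_zero [(1, [3, 4]), (1, [4, 3])] (by decide +kernel)
  simp only [evC, List.map_cons, List.map_nil, List.prod_cons, List.prod_nil, List.sum_cons,
    List.sum_nil, mul_one, add_zero, Int.cast_one, Int.cast_neg, one_smul, neg_smul,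
    Int.cast_ofNat] at h
  simp only [mA, mB, mZ, mF, mX, mY1, mY2, dA, dZ, mul_assoc]
  rw [← sub_eq_zero]
  refine Eq.trans ?_ h
  abel

theorem rel_ZB : mZ * mB = -(mB * mZ) + (2 : ℚ) • (mX * mB) := by
  have h := evC_eq_zero [(1, [2, 1]), (1, [1, 2]), (-2, [4, 1])] (by decide +kernel)
  simp only [evC, List.map_cons, List.map_nil, List.prod_cons, List.prod_nil, List.sum_cons,
    List.sum_nil, mul_one, add_zero, Int.cast_one, Int.cast_neg, one_smul, neg_smul,
    Int.cast_ofNat] at h
  simp only [mA, mB, mZ, mF, mX, mY1, mY2, dA, dZ, mul_assoc]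
  rw [← sub_eq_zero]
  refine Eq.trans ?_ h
  abel

theorem rel_ZF : mZ * mF = -(mF * mZ) - (2 : ℚ) • (mX * mF) := by
  have h := evC_eq_zero [(1, [2, 3]), (1, [3, 2]), (2, [4, 3])] (by decide +kernel)
  simp only [evC, List.map_cons, List.map_nil, List.prod_cons, List.prod_nil, List.sum_cons,
    List.sum_nil, mul_one, add_zero, Int.cast_one, Int.cast_neg, one_smul, neg_smul,
    Int.cast_ofNat] at h
  simp only [mA, mB, mZ, mF, mX, mY1, mY2, dA, dZ, mul_assoc]
  rw [← sub_eq_zero]
  refine Eq.trans ?_ h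
  abel

theorem rel_ZX : mZ * mX = -(mX * mZ) := by
  have h := evC_eq_zero [(1, [2, 4]), (1, [4, 2])] (by decide +kernel)
  simp only [evC, List.map_cons, List.map_nil, List.prod_cons, List.prod_nil, List.sum_cons,
    List.sum_nil, mul_one, add_zero, Int.cast_one, Int.cast_neg, one_smul, neg_smul,
    Int.cast_ofNat] at h
  simp only [mA, mB, mZ, mF, mX, mY1, mY2, dA, dZ, mul_assoc]
  rw [← sub_eq_zero]
  refine Eq.trans ?_ h
  abel

theorem rel_Y1A : mY1 * mA = mA * mY1 := by
  have h := evC_eq_zero [(1, [5, 0]), (-1, [0, 5])] (by decide +kernel)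
  simp only [evC, List.map_cons, List.map_nil, List.prod_cons, List.prod_nil, List.sum_cons,
    List.sum_nil, mul_one, add_zero, Int.cast_one, Int.cast_neg, one_smul, neg_smul,
    Int.cast_ofNat] at h
  simp only [mA, mB, mZ, mF, mX, mY1, mY2, dA, dZ, mul_assoc]
  rw [← sub_eq_zero]
  refine Eq.trans ?_ h
  abel

theorem rel_Y2A : mY2 * mA = mA * mY2 + mB * mY1 := by
  have h := evC_eq_zero [(1, [6, 0]), (-1, [0, 6]), (-1, [1, 5])] (by decide +kernel)
  simp only [evC, List.map_cons, List.map_nil, List.prod_cons, List.prod_nil, List.sum_cons,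
    List.sum_nil, mul_one, add_zero, Int.cast_one, Int.cast_neg, one_smul, neg_smul,
    Int.cast_ofNat] at h
  simp only [mA, mB, mZ, mF, mX, mY1, mY2, dA, dZ, mul_assoc]
  rw [← sub_eq_zero]
  refine Eq.trans ?_ h
  abel

theorem rel_Y1B : mY1 * mB = mB * mY1 := by
  have h := evC_eq_zero [(1, [5, 1]), (-1, [1, 5])] (by decide +kernel)
  simp only [evC, List.map_cons, List.map_nil, List.prod_cons, List.prod_nil, List.sum_cons,
    List.sum_nil, mul_one, add_zero, Int.cast_one, Int.cast_neg, one_smul, neg_smul,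
    Int.cast_ofNat] at h
  simp only [mA, mB, mZ, mF, mX, mY1, mY2, dA, dZ, mul_assoc]
  rw [← sub_eq_zero]
  refine Eq.trans ?_ h
  abel

theorem rel_Y2B : mY2 * mB = mB * mY2 := by
  have h := evC_eq_zero [(1, [6, 1]), (-1, [1, 6])] (by decide +kernel)
  simp only [evC, List.map_cons, List.map_nil, List.prod_cons, List.prod_nil, List.sum_cons,
    List.sum_nil, mul_one, add_zero, Int.cast_one, Int.cast_neg, one_smul, neg_smul,
    Int.cast_ofNat] at h
  simp only [mA, mB, mZ, mF, mX, mY1, mY2, dA, dZ, mul_assoc]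
  rw [← sub_eq_zero]
  refine Eq.trans ?_ h
  abel

theorem rel_Y1F : mY1 * mF = mF * mY1 := by
  have h := evC_eq_zero [(1, [5, 3]), (-1, [3, 5])] (by decide +kernel)
  simp only [evC, List.map_cons, List.map_nil, List.prod_cons, List.prod_nil, List.sum_cons,
    List.sum_nil, mul_one, add_zero, Int.cast_one, Int.cast_neg, one_smul, neg_smul,
    Int.cast_ofNat] at h
  simp only [mA, mB, mZ, mF, mX, mY1, mY2, dA, dZ, mul_assoc]
  rw [← sub_eq_zero]
  refine Eq.trans ?_ h
  abel

theorem rel_Y2F : mY2 * mF = mF * mY2 := by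
  have h := evC_eq_zero [(1, [6, 3]), (-1, [3, 6])] (by decide +kernel)
  simp only [evC, List.map_cons, List.map_nil, List.prod_cons, List.prod_nil, List.sum_cons,
    List.sum_nil, mul_one, add_zero, Int.cast_one, Int.cast_neg, one_smul, neg_smul,
    Int.cast_ofNat] at h
  simp only [mA, mB, mZ, mF, mX, mY1, mY2, dA, dZ, mul_assoc]
  rw [← sub_eq_zero]
  refine Eq.trans ?_ h
  abel

theorem rel_Y1X : mY1 * mX = mX * mY1 := by
  have h := evC_eq_zero [(1, [5, 4]), (-1, [4, 5])] (by decide +kernel)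
  simp only [evC, List.map_cons, List.map_nil, List.prod_cons, List.prod_nil, List.sum_cons,
    List.sum_nil, mul_one, add_zero, Int.cast_one, Int.cast_neg, one_smul, neg_smul,
    Int.cast_ofNat] at h
  simp only [mA, mB, mZ, mF, mX, mY1, mY2, dA, dZ, mul_assoc]
  rw [← sub_eq_zero]
  refine Eq.trans ?_ h
  abel

theorem rel_Y2X : mY2 * mX = mX * mY2 := by
  have h := evC_eq_zero [(1, [6, 4]), (-1, [4, 6])] (by decide +kernel)
  simp only [evC, List.map_cons, List.map_nil, List.prod_cons, List.prod_nil, List.sum_cons,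
    List.sum_nil, mul_one, add_zero, Int.cast_one, Int.cast_neg, one_smul, neg_smul,
    Int.cast_ofNat] at h
  simp only [mA, mB, mZ, mF, mX, mY1, mY2, dA, dZ, mul_assoc]
  rw [← sub_eq_zero]
  refine Eq.trans ?_ h
  abel

theorem rel_Y1Z : mY1 * mZ = mZ * mY1 + mF * mY2 + mX * mY1 := by
  have h := evC_eq_zero [(1, [5, 2]), (-1, [2, 5]), (-1, [3, 6]), (-1, [4, 5])] (by decide +kernel)
  simp only [evC, List.map_cons, List.map_nil, List.prod_cons, List.prod_nil, List.sum_cons,
    List.sum_nil, mul_one, add_zero, Int.cast_one, Int.cast_neg, one_smul, neg_smul,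
    Int.cast_ofNat] at h
  simp only [mA, mB, mZ, mF, mX, mY1, mY2, dA, dZ, mul_assoc]
  rw [← sub_eq_zero]
  refine Eq.trans ?_ h
  abel

theorem rel_Y2Z : mY2 * mZ = mZ * mY2 - mX * mY2 := by
  have h := evC_eq_zero [(1, [6, 2]), (-1, [2, 6]), (1, [4, 6])] (by decide +kernel)
  simp only [evC, List.map_cons, List.map_nil, List.prod_cons, List.prod_nil, List.sum_cons,
    List.sum_nil, mul_one, add_zero, Int.cast_one, Int.cast_neg, one_smul, neg_smul,
    Int.cast_ofNat] at h
  simp only [mA, mB, mZ, mF, mX, mY1, mY2, dA, dZ, mul_assoc]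
  rw [← sub_eq_zero]
  refine Eq.trans ?_ h
  abel

theorem rel_Y1Y1 : mY1 * mY1 = 0 := by
  have h := evC_eq_zero [(1, [5, 5])] (by decide +kernel)
  simp only [evC, List.map_cons, List.map_nil, List.prod_cons, List.prod_nil, List.sum_cons,
    List.sum_nil, mul_one, add_zero, Int.cast_one, Int.cast_neg, one_smul, neg_smul,
    Int.cast_ofNat] at h
  simp only [mA, mB, mZ, mF, mX, mY1, mY2, dA, dZ, mul_assoc]
  rw [← sub_eq_zero]
  refine Eq.trans ?_ h
  abel

theorem rel_Y2Y2 : mY2 * mY2 = 0 := by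
  have h := evC_eq_zero [(1, [6, 6])] (by decide +kernel)
  simp only [evC, List.map_cons, List.map_nil, List.prod_cons, List.prod_nil, List.sum_cons,
    List.sum_nil, mul_one, add_zero, Int.cast_one, Int.cast_neg, one_smul, neg_smul,
    Int.cast_ofNat] at h
  simp only [mA, mB, mZ, mF, mX, mY1, mY2, dA, dZ, mul_assoc]
  rw [← sub_eq_zero]
  refine Eq.trans ?_ h
  abel

theorem rel_Y2Y1 : mY2 * mY1 = -(mY1 * mY2) := by
  have h := evC_eq_zero [(1, [6, 5]), (1, [5, 6])] (by decide +kernel)
  simp only [evC, List.map_cons, List.map_nil, List.prod_cons, List.prod_nil, List.sum_cons,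
    List.sum_nil, mul_one, add_zero, Int.cast_one, Int.cast_neg, one_smul, neg_smul,
    Int.cast_ofNat] at h
  simp only [mA, mB, mZ, mF, mX, mY1, mY2, dA, dZ, mul_assoc]
  rw [← sub_eq_zero]
  refine Eq.trans ?_ h
  abel

theorem rel_dAA : dA * mA = 1 - mA * dA := by
  have h := evC_eq_zero [(1, [14, 0]), (-1, []), (1, [0, 14])] (by decide +kernel)
  simp only [evC, List.map_cons, List.map_nil, List.prod_cons, List.prod_nil, List.sum_cons,
    List.sum_nil, mul_one, add_zero, Int.cast_one, Int.cast_neg, one_smul, neg_smul,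
    Int.cast_ofNat] at h
  simp only [mA, mB, mZ, mF, mX, mY1, mY2, dA, dZ, mul_assoc]
  rw [← sub_eq_zero]
  refine Eq.trans ?_ h
  abel

theorem rel_dAB : dA * mB = -(mB * dA) := by
  have h := evC_eq_zero [(1, [14, 1]), (1, [1, 14])] (by decide +kernel)
  simp only [evC, List.map_cons, List.map_nil, List.prod_cons, List.prod_nil, List.sum_cons,
    List.sum_nil, mul_one, add_zero, Int.cast_one, Int.cast_neg, one_smul, neg_smul,
    Int.cast_ofNat] at h
  simp only [mA, mB, mZ, mF, mX, mY1, mY2, dA, dZ, mul_assoc]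
  rw [← sub_eq_zero]
  refine Eq.trans ?_ h
  abel

theorem rel_dAF : dA * mF = -(mF * dA) := by
  have h := evC_eq_zero [(1, [14, 3]), (1, [3, 14])] (by decide +kernel)
  simp only [evC, List.map_cons, List.map_nil, List.prod_cons, List.prod_nil, List.sum_cons,
    List.sum_nil, mul_one, add_zero, Int.cast_one, Int.cast_neg, one_smul, neg_smul,
    Int.cast_ofNat] at h
  simp only [mA, mB, mZ, mF, mX, mY1, mY2, dA, dZ, mul_assoc]
  rw [← sub_eq_zero]
  refine Eq.trans ?_ h
  abel

theorem rel_dAX : dA * mX = -(mX * dA) := by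
  have h := evC_eq_zero [(1, [14, 4]), (1, [4, 14])] (by decide +kernel)
  simp only [evC, List.map_cons, List.map_nil, List.prod_cons, List.prod_nil, List.sum_cons,
    List.sum_nil, mul_one, add_zero, Int.cast_one, Int.cast_neg, one_smul, neg_smul,
    Int.cast_ofNat] at h
  simp only [mA, mB, mZ, mF, mX, mY1, mY2, dA, dZ, mul_assoc]
  rw [← sub_eq_zero]
  refine Eq.trans ?_ h
  abel

theorem rel_dAY1 : dA * mY1 = mY1 * dA := by
  have h := evC_eq_zero [(1, [14, 5]), (-1, [5, 14])] (by decide +kernel)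
  simp only [evC, List.map_cons, List.map_nil, List.prod_cons, List.prod_nil, List.sum_cons,
    List.sum_nil, mul_one, add_zero, Int.cast_one, Int.cast_neg, one_smul, neg_smul,
    Int.cast_ofNat] at h
  simp only [mA, mB, mZ, mF, mX, mY1, mY2, dA, dZ, mul_assoc]
  rw [← sub_eq_zero]
  refine Eq.trans ?_ h
  abel

theorem rel_dAY2 : dA * mY2 = mY2 * dA := by
  have h := evC_eq_zero [(1, [14, 6]), (-1, [6, 14])] (by decide +kernel)
  simp only [evC, List.map_cons, List.map_nil, List.prod_cons, List.prod_nil, List.sum_cons,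
    List.sum_nil, mul_one, add_zero, Int.cast_one, Int.cast_neg, one_smul, neg_smul,
    Int.cast_ofNat] at h
  simp only [mA, mB, mZ, mF, mX, mY1, mY2, dA, dZ, mul_assoc]
  rw [← sub_eq_zero]
  refine Eq.trans ?_ h
  abel

theorem rel_dAZ : dA * mZ = -(mZ * dA) - mX * mF * mB * dZ := by
  have h := evC_eq_zero [(1, [14, 2]), (1, [2, 14]), (1, [4, 3, 1, 15])] (by decide +kernel)
  simp only [evC, List.map_cons, List.map_nil, List.prod_cons, List.prod_nil, List.sum_cons,
    List.sum_nil, mul_one, add_zero, Int.cast_one, Int.cast_neg, one_smul, neg_smul,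
    Int.cast_ofNat] at h
  simp only [mA, mB, mZ, mF, mX, mY1, mY2, dA, dZ, mul_assoc]
  rw [← sub_eq_zero]
  refine Eq.trans ?_ h
  abel

theorem rel_dAdA : dA * dA = 0 := by
  have h := evC_eq_zero [(1, [14, 14])] (by decide +kernel)
  simp only [evC, List.map_cons, List.map_nil, List.prod_cons, List.prod_nil, List.sum_cons,
    List.sum_nil, mul_one, add_zero, Int.cast_one, Int.cast_neg, one_smul, neg_smul,
    Int.cast_ofNat] at h
  simp only [mA, mB, mZ, mF, mX, mY1, mY2, dA, dZ, mul_assoc]
  rw [← sub_eq_zero]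
  refine Eq.trans ?_ h
  abel

theorem rel_dZA : dZ * mA = -(mA * dZ) := by
  have h := evC_eq_zero [(1, [15, 0]), (1, [0, 15])] (by decide +kernel)
  simp only [evC, List.map_cons, List.map_nil, List.prod_cons, List.prod_nil, List.sum_cons,
    List.sum_nil, mul_one, add_zero, Int.cast_one, Int.cast_neg, one_smul, neg_smul,
    Int.cast_ofNat] at h
  simp only [mA, mB, mZ, mF, mX, mY1, mY2, dA, dZ, mul_assoc]
  rw [← sub_eq_zero]
  refine Eq.trans ?_ h
  abel

theorem rel_dZB : dZ * mB = -(mB * dZ) := by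
  have h := evC_eq_zero [(1, [15, 1]), (1, [1, 15])] (by decide +kernel)
  simp only [evC, List.map_cons, List.map_nil, List.prod_cons, List.prod_nil, List.sum_cons,
    List.sum_nil, mul_one, add_zero, Int.cast_one, Int.cast_neg, one_smul, neg_smul,
    Int.cast_ofNat] at h
  simp only [mA, mB, mZ, mF, mX, mY1, mY2, dA, dZ, mul_assoc]
  rw [← sub_eq_zero]
  refine Eq.trans ?_ h
  abel

theorem rel_dZF : dZ * mF = -(mF * dZ) := by
  have h := evC_eq_zero [(1, [15, 3]), (1, [3, 15])] (by decide +kernel)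
  simp only [evC, List.map_cons, List.map_nil, List.prod_cons, List.prod_nil, List.sum_cons,
    List.sum_nil, mul_one, add_zero, Int.cast_one, Int.cast_neg, one_smul, neg_smul,
    Int.cast_ofNat] at h
  simp only [mA, mB, mZ, mF, mX, mY1, mY2, dA, dZ, mul_assoc]
  rw [← sub_eq_zero]
  refine Eq.trans ?_ h
  abel

theorem rel_dZX : dZ * mX = -(mX * dZ) := by
  have h := evC_eq_zero [(1, [15, 4]), (1, [4, 15])] (by decide +kernel)
  simp only [evC, List.map_cons, List.map_nil, List.prod_cons, List.prod_nil, List.sum_cons,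
    List.sum_nil, mul_one, add_zero, Int.cast_one, Int.cast_neg, one_smul, neg_smul,
    Int.cast_ofNat] at h
  simp only [mA, mB, mZ, mF, mX, mY1, mY2, dA, dZ, mul_assoc]
  rw [← sub_eq_zero]
  refine Eq.trans ?_ h
  abel

theorem rel_dZZ : dZ * mZ = 1 - mZ * dZ := by
  have h := evC_eq_zero [(1, [15, 2]), (-1, []), (1, [2, 15])] (by decide +kernel)
  simp only [evC, List.map_cons, List.map_nil, List.prod_cons, List.prod_nil, List.sum_cons,
    List.sum_nil, mul_one, add_zero, Int.cast_one, Int.cast_neg, one_smul, neg_smul,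
    Int.cast_ofNat] at h
  simp only [mA, mB, mZ, mF, mX, mY1, mY2, dA, dZ, mul_assoc]
  rw [← sub_eq_zero]
  refine Eq.trans ?_ h
  abel

theorem rel_dZY1 : dZ * mY1 = mY1 * dZ := by
  have h := evC_eq_zero [(1, [15, 5]), (-1, [5, 15])] (by decide +kernel)
  simp only [evC, List.map_cons, List.map_nil, List.prod_cons, List.prod_nil, List.sum_cons,
    List.sum_nil, mul_one, add_zero, Int.cast_one, Int.cast_neg, one_smul, neg_smul,
    Int.cast_ofNat] at h
  simp only [mA, mB, mZ, mF, mX, mY1, mY2, dA, dZ, mul_assoc]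
  rw [← sub_eq_zero]
  refine Eq.trans ?_ h
  abel

theorem rel_dZY2 : dZ * mY2 = mY2 * dZ := by
  have h := evC_eq_zero [(1, [15, 6]), (-1, [6, 15])] (by decide +kernel)
  simp only [evC, List.map_cons, List.map_nil, List.prod_cons, List.prod_nil, List.sum_cons,
    List.sum_nil, mul_one, add_zero, Int.cast_one, Int.cast_neg, one_smul, neg_smul,
    Int.cast_ofNat] at h
  simp only [mA, mB, mZ, mF, mX, mY1, mY2, dA, dZ, mul_assoc]
  rw [← sub_eq_zero]
  refine Eq.trans ?_ h
  abel

theorem rel_dZdZ : dZ * dZ = 0 := by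
  have h := evC_eq_zero [(1, [15, 15])] (by decide +kernel)
  simp only [evC, List.map_cons, List.map_nil, List.prod_cons, List.prod_nil, List.sum_cons,
    List.sum_nil, mul_one, add_zero, Int.cast_one, Int.cast_neg, one_smul, neg_smul,
    Int.cast_ofNat] at h
  simp only [mA, mB, mZ, mF, mX, mY1, mY2, dA, dZ, mul_assoc]
  rw [← sub_eq_zero]
  refine Eq.trans ?_ h
  abel

theorem rel_dZdA : dZ * dA = -(dA * dZ) := by
  have h := evC_eq_zero [(1, [15, 14]), (1, [14, 15])] (by decide +kernel)
  simp only [evC, List.map_cons, List.map_nil, List.prod_cons, List.prod_nil, List.sum_cons,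
    List.sum_nil, mul_one, add_zero, Int.cast_one, Int.cast_neg, one_smul, neg_smul,
    Int.cast_ofNat] at h
  simp only [mA, mB, mZ, mF, mX, mY1, mY2, dA, dZ, mul_assoc]
  rw [← sub_eq_zero]
  refine Eq.trans ?_ h
  abel

theorem rel_LR (g h : Fin 7) : lm g * rm h = rm h * lm g := by
  have key : ∀ g h : Fin 7, chk [(1, [7 + (g : ℕ), (h : ℕ)]), (-1, [(h : ℕ), 7 + (g : ℕ)])] = true := by
    decide +kernel
  have h1 := evC_eq_zero _ (key g h)
  simp only [evC, List.map_cons, List.map_nil, List.prod_cons, List.prod_nil, List.sum_cons,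
    List.sum_nil, mul_one, add_zero, Int.cast_one, Int.cast_neg, one_smul, neg_smul] at h1
  rw [← sub_eq_zero]
  refine Eq.trans ?_ h1
  abel

end Run7.h433.Nak
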