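/-
The symmetric algebra `T` (of dimension 768) of the counterexample to the Nakayama conjecture,
its modules `W V = Vt → I → V`, the operators and the complexes.
-/
import Pool.Agent.Run7.h433.Nak.Rel
import Pool.Agent.W881.GamExt

set_option autoImplicit false

namespace Run7.h433.Nak

/-! ### Degrees -/

/-- `ZMod 2`-degree of the basis element number `r` (as a natural number) -/
def nI (r : ℕ) : ℕ := (r / 16 + r / 2) % 2

/-- `ℤ`-degree of the basis element number `r`: `zeta, phi, chi` have degree 2, `y1, y2` have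
degree `-3`, `alpha, beta` have degree 0 -/
def nG (r : ℕ) : ℤ := 2 * ((r / 8 % 2 + r / 4 % 2 + r % 2 : ℕ) : ℤ) -
  3 * ((r / 32 % 2 + r / 64 % 2 : ℕ) : ℤ)

/-- The vertices: `τ = 6 w + 2 j + i` with `w, i` in `{0, 1}`, `j` in `{0, 1, 2}`. -/
abbrev Vt := Fin 12

/-- `ZMod 2`-degree of a vertex -/
def vI (τ : Vt) : ℕ := (τ : ℕ) % 2

/-- `ℤ`-degree of a vertex: `2 j - 3 w` -/
def vG (τ : Vt) : ℤ := 2 * (((τ : ℕ) / 2 % 3 : ℕ) : ℤ) - 3 * (((τ : ℕ) / 6 : ℕ) : ℤ)

/-- `ZMod 2`-degree of the source -/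
def sI (τ : Vt) (r : I) : ZMod 2 := (vI τ : ZMod 2) + (nI r : ZMod 2)

/-- `ℤ`-degree of the source -/
def sG (τ : Vt) (r : I) : ℤ := vG τ - nG r

/-! ### The algebra `T` -/

/-- index set of the big matrices -/
abbrev J := Vt × I

/-- right multiplication by the generator number `g`, on the big space -/
def rr (g : Fin 7) : Matrix J J ℚ := fun p q => if p.1 = q.1 then rm g p.2 q.2 else 0

/-- The algebra `T`: matrices commuting with the right multiplications and preserving the degree
of the source. -/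
def Tsub : Subalgebra ℚ (Matrix J J ℚ) where
  carrier := {M | (∀ g : Fin 7, M * rr g = rr g * M) ∧
    ∀ p q : J, M p q ≠ 0 → sI p.1 p.2 = sI q.1 q.2 ∧ sG p.1 p.2 = sG q.1 q.2}
  mul_mem' := by
    rintro M N ⟨hM, hM'⟩ ⟨hN, hN'⟩
    refine ⟨fun g => by rw [mul_assoc, hN, ← mul_assoc, hM, mul_assoc], fun p q h => ?_⟩
    rw [Matrix.mul_apply] at h
    obtain ⟨r, -, hr⟩ := Finset.exists_ne_zero_of_sum_ne_zero h
    have h1 := hM' p r (left_ne_zero_of_mul hr)
    have h2 := hN' r q (right_ne_zero_of_mul hr)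
    exact ⟨h1.1.trans h2.1, h1.2.trans h2.2⟩
  add_mem' := by
    rintro M N ⟨hM, hM'⟩ ⟨hN, hN'⟩
    refine ⟨fun g => by rw [add_mul, mul_add, hM, hN], fun p q h => ?_⟩
    by_cases h1 : M p q = 0
    · by_cases h2 : N p q = 0
      · exact absurd (by rw [Matrix.add_apply, h1, h2, add_zero]) h
      · exact hN' p q h2
    · exact hM' p q h1
  algebraMap_mem' c := by
    refine ⟨fun g => Algebra.commutes c (rr g), fun p q h => ?_⟩
    by_cases hpq : p = q
    · subst hpq; exact ⟨rfl, rfl⟩
    · exact absurd (by rw [Matrix.algebraMap_matrix_apply, if_neg hpq]) h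

/-- The algebra `T`. -/
def T : Type := Tsub

instance : Ring T := inferInstanceAs (Ring Tsub)
instance : Algebra ℚ T := inferInstanceAs (Algebra ℚ Tsub)

/-- the matrix of an element of `T` -/
def T.mat (t : T) : Matrix J J ℚ := (show Tsub from t).1

/-- the element of `T` with a given matrix -/
def T.mk (M : Matrix J J ℚ) (h : M ∈ Tsub) : T := (⟨M, h⟩ : Tsub)

theorem T.mat_mk (M : Matrix J J ℚ) (h : M ∈ Tsub) : (T.mk M h).mat = M := rfl
theorem T.ext {s t : T} (h : s.mat = t.mat) : s = t := Subtype.ext h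
theorem T.mat_mul (s t : T) : (s * t).mat = s.mat * t.mat := rfl
theorem T.mat_add (s t : T) : (s + t).mat = s.mat + t.mat := rfl
theorem T.mat_one : (1 : T).mat = 1 := rfl
theorem T.mat_zero : (0 : T).mat = 0 := rfl
theorem T.mat_smul (c : ℚ) (t : T) : (c • t).mat = c • t.mat := rfl
theorem T.comm (t : T) (g : Fin 7) : t.mat * rr g = rr g * t.mat := (show Tsub from t).2.1 g
theorem T.src (t : T) (p q : J) (h : t.mat p q ≠ 0) :
    sI p.1 p.2 = sI q.1 q.2 ∧ sG p.1 p.2 = sG q.1 q.2 := (show Tsub from t).2.2 p q h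

/-! ### The modules `W V` -/

/-- The `T`-module of the functions on the basis with values in `V`. -/
def W (V : Type) : Type := Vt → I → V

variable {V V' V'' : Type} [AddCommGroup V] [Module ℚ V] [AddCommGroup V'] [Module ℚ V']
  [AddCommGroup V''] [Module ℚ V'']

instance : AddCommGroup (W V) := inferInstanceAs (AddCommGroup (Vt → I → V))
instance : Module ℚ (W V) := inferInstanceAs (Module ℚ (Vt → I → V))

/-- the action of big matrices -/
def act (M : Matrix J J ℚ) : W V →ₗ[ℚ] W V where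
  toFun x := fun τ r => ∑ q : J, M (τ, r) q • x q.1 q.2
  map_add' x y := by
    funext τ r
    show ∑ q : J, M (τ, r) q • (x q.1 q.2 + y q.1 q.2) = _
    simp only [smul_add, Finset.sum_add_distrib]
    rfl
  map_smul' c x := by
    funext τ r
    show ∑ q : J, M (τ, r) q • (c • x q.1 q.2) = c • ∑ q : J, M (τ, r) q • x q.1 q.2
    rw [Finset.smul_sum]
    exact Finset.sum_congr rfl fun q _ => smul_comm _ _ _

theorem act_apply (M : Matrix J J ℚ) (x : W V) (τ : Vt) (r : I) :
    act M x τ r = ∑ q : J, M (τ, r) q • x q.1 q.2 := rfl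

theorem act_one (x : W V) : act (1 : Matrix J J ℚ) x = x := by
  funext τ r
  rw [act_apply, Finset.sum_eq_single (τ, r)]
  · simp
  · intro q _ hq
    rw [Matrix.one_apply_ne (Ne.symm hq), zero_smul]
  · simp

theorem act_mul (M N : Matrix J J ℚ) (x : W V) : act (M * N) x = act M (act N x) := by
  funext τ r
  simp only [act_apply, Matrix.mul_apply, Finset.sum_smul, Finset.smul_sum, mul_smul]
  rw [Finset.sum_comm]

theorem act_add (M N : Matrix J J ℚ) (x : W V) : act (M + N) x = act M x + act N x := by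
  funext τ r
  show ∑ q : J, (M + N) (τ, r) q • x q.1 q.2 = act M x τ r + act N x τ r
  simp only [act_apply, Matrix.add_apply, add_smul, Finset.sum_add_distrib]

theorem act_smul (c : ℚ) (M : Matrix J J ℚ) (x : W V) : act (c • M) x = c • act M x := by
  funext τ r
  show ∑ q : J, (c • M) (τ, r) q • x q.1 q.2 = c • act M x τ r
  simp only [act_apply, Matrix.smul_apply, smul_eq_mul, mul_smul, Finset.smul_sum]

theorem act_zero (x : W V) : act (0 : Matrix J J ℚ) x = 0 := by
  have := act_smul 0 (0 : Matrix J J ℚ) x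
  rw [zero_smul, zero_smul] at this
  exact this

instance : Module T (W V) where
  smul t x := act t.mat x
  one_smul x := act_one x
  mul_smul _ _ x := act_mul _ _ x
  smul_zero t := map_zero (act t.mat)
  smul_add t x y := map_add (act t.mat) x y
  add_smul _ _ x := act_add _ _ x
  zero_smul x := act_zero x

theorem smul_def (t : T) (x : W V) : t • x = act t.mat x := rfl

instance : IsScalarTower ℚ T (W V) where
  smul_assoc c _ x := act_smul c _ x

instance : SMulCommClass ℚ T (W V) where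
  smul_comm c t x := ((act t.mat).map_smul c x).symm

/-! ### Operators -/

/-- the small matrices act on the second index -/
def oM (M : Matrix I I ℚ) : W V →ₗ[ℚ] W V where
  toFun x := fun τ r => ∑ s : I, M r s • x τ s
  map_add' x y := by
    funext τ r
    show ∑ s : I, M r s • (x τ s + y τ s) = _
    simp only [smul_add, Finset.sum_add_distrib]
    rfl
  map_smul' c x := by
    funext τ r
    show ∑ s : I, M r s • (c • x τ s) = c • ∑ s : I, M r s • x τ s
    rw [Finset.smul_sum]
    exact Finset.sum_congr rfl fun q _ => smul_comm _ _ _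

theorem oM_apply (M : Matrix I I ℚ) (x : W V) (τ : Vt) (r : I) :
    oM M x τ r = ∑ s : I, M r s • x τ s := rfl

/-- linear maps act on the coefficients -/
def oL (m : V →ₗ[ℚ] V') : W V →ₗ[ℚ] W V' where
  toFun x := fun τ r => m (x τ r)
  map_add' x y := by funext τ r; exact m.map_add _ _
  map_smul' c x := by funext τ r; exact m.map_smul _ _

theorem oL_apply (m : V →ₗ[ℚ] V') (x : W V) (τ : Vt) (r : I) : oL m x τ r = m (x τ r) := rfl

/-- commutation with the action of `T` -/
def IsT {A B : Type} [AddCommGroup A] [Module ℚ A] [Module T A] [AddCommGroup B] [Module ℚ B]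
    [Module T B] (φ : A →ₗ[ℚ] B) : Prop := ∀ (t : T) (x : A), φ (t • x) = t • φ x

/-- the `T`-linear map -/
def mkT {A B : Type} [AddCommGroup A] [Module ℚ A] [Module T A] [AddCommGroup B] [Module ℚ B]
    [Module T B] (φ : A →ₗ[ℚ] B) (h : IsT φ) : A →ₗ[T] B where
  toFun := φ
  map_add' := φ.map_add
  map_smul' := h

/-- A representation of `sl₂`. -/
structure SL (V : Type) [AddCommGroup V] [Module ℚ V] where
  e : Module.End ℚ V
  f : Module.End ℚ V
  h : Module.End ℚ V
  ef : e * f - f * e = h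
  he : h * e - e * h = (2 : ℚ) • e
  hf : h * f - f * h = -((2 : ℚ) • f)

/-- `a = ρ(alpha) - e ρ(beta)` -/
def oa (S : SL V) : W V →ₗ[ℚ] W V := oM mA - oL S.e ∘ₗ oM mB

/-- `z = ρ(zeta) - f ρ(phi) - h ρ(chi)` -/
def oz (S : SL V) : W V →ₗ[ℚ] W V := oM mZ - oL S.f ∘ₗ oM mF - oL S.h ∘ₗ oM mX

/-- `κ = ρ(beta phi chi)` -/
def ok : W V →ₗ[ℚ] W V := oM (mX * mF * mB)

/-- contraction -/
def oda : W V →ₗ[ℚ] W V := oM dA

/-- contraction -/
def odz : W V →ₗ[ℚ] W V := oM dZ

/-- `Y = P ρ(y1) + Q ρ(y2)` -/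
def oY (P Q : V →ₗ[ℚ] V') : W V →ₗ[ℚ] W V' := oL P ∘ₗ oM mY1 + oL Q ∘ₗ oM mY2

end Run7.h433.Nak
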