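/-
`T`-linearity of the operators, graded pieces, the complexes, the representations `Vm m`.
-/
import Pool.Agent.Run7.h433.Nak.Defs

set_option autoImplicit false

namespace Run7.h433.Nak

variable {V V' V'' : Type} [AddCommGroup V] [Module ℚ V] [AddCommGroup V'] [Module ℚ V']
  [AddCommGroup V''] [Module ℚ V'']

/-- block diagonal matrices -/
def bd (M : Matrix I I ℚ) : Matrix J J ℚ := fun p q => if p.1 = q.1 then M p.2 q.2 else 0

theorem oM_eq_act (M : Matrix I I ℚ) (x : W V) : oM M x = act (bd M) x := by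
  funext τ r
  rw [oM_apply, act_apply, Fintype.sum_prod_type, Finset.sum_eq_single τ]
  · refine Finset.sum_congr rfl fun s _ => ?_
    rw [bd, if_pos rfl]
  · intro σ _ hσ
    refine Finset.sum_eq_zero fun s _ => ?_
    rw [bd, if_neg (fun h => hσ h.symm), zero_smul]
  · simp

theorem isT_rm (g : Fin 7) : IsT (oM (rm g) : W V →ₗ[ℚ] W V) := by
  intro t x
  have h := t.comm g
  rw [oM_eq_act, oM_eq_act, smul_def, smul_def, ← act_mul, ← act_mul]
  exact congrArg (fun M => act M x) h.symm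

theorem isT_oL (m : V →ₗ[ℚ] V') : IsT (oL m : W V →ₗ[ℚ] W V') := by
  intro t x
  funext τ r
  show m (∑ q : J, t.mat (τ, r) q • x q.1 q.2) = ∑ q : J, t.mat (τ, r) q • m (x q.1 q.2)
  rw [map_sum]
  exact Finset.sum_congr rfl fun q _ => m.map_smul _ _

theorem IsT.comp {A B C : Type} [AddCommGroup A] [Module ℚ A] [Module T A] [AddCommGroup B]
    [Module ℚ B] [Module T B] [AddCommGroup C] [Module ℚ C] [Module T C] {ψ : B →ₗ[ℚ] C}
    {φ : A →ₗ[ℚ] B} (h : IsT ψ) (h' : IsT φ) : IsT (ψ ∘ₗ φ) := fun t x => by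
  show ψ (φ (t • x)) = _
  rw [h', h]
  rfl

theorem IsT.add {A B : Type} [AddCommGroup A] [Module ℚ A] [Module T A] [AddCommGroup B]
    [Module ℚ B] [Module T B] {ψ φ : A →ₗ[ℚ] B} (h : IsT ψ) (h' : IsT φ) : IsT (ψ + φ) :=
  fun t x => by
  show ψ (t • x) + φ (t • x) = t • (ψ x + φ x)
  rw [h', h, smul_add]

theorem IsT.sub {A B : Type} [AddCommGroup A] [Module ℚ A] [Module T A] [AddCommGroup B]
    [Module ℚ B] [Module T B] {ψ φ : A →ₗ[ℚ] B} (h : IsT ψ) (h' : IsT φ) : IsT (ψ - φ) :=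
  fun t x => by
  show ψ (t • x) - φ (t • x) = t • (ψ x - φ x)
  rw [h', h, smul_sub]

theorem oM_mul (M N : Matrix I I ℚ) (x : W V) : oM (M * N) x = oM M (oM N x) := by
  funext τ r
  simp only [oM_apply, Matrix.mul_apply, Finset.sum_smul, Finset.smul_sum, mul_smul]
  rw [Finset.sum_comm]

theorem oM_add (M N : Matrix I I ℚ) (x : W V) : oM (M + N) x = oM M x + oM N x := by
  funext τ r
  show ∑ s : I, (M + N) r s • x τ s = oM M x τ r + oM N x τ r
  simp only [oM_apply, Matrix.add_apply, add_smul, Finset.sum_add_distrib]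

theorem oM_smul (c : ℚ) (M : Matrix I I ℚ) (x : W V) : oM (c • M) x = c • oM M x := by
  funext τ r
  show ∑ s : I, (c • M) r s • x τ s = c • oM M x τ r
  simp only [oM_apply, Matrix.smul_apply, smul_eq_mul, mul_smul, Finset.smul_sum]

theorem oM_zero (x : W V) : oM (0 : Matrix I I ℚ) x = 0 := by
  have := oM_smul 0 (0 : Matrix I I ℚ) x
  rw [zero_smul, zero_smul] at this
  exact this

theorem oM_neg (M : Matrix I I ℚ) (x : W V) : oM (-M) x = - oM M x := by
  have := oM_smul (-1) M x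
  rw [neg_one_smul, neg_one_smul] at this
  exact this

theorem oM_sub (M N : Matrix I I ℚ) (x : W V) : oM (M - N) x = oM M x - oM N x := by
  rw [sub_eq_add_neg, oM_add, oM_neg, sub_eq_add_neg]

theorem oM_one (x : W V) : oM (1 : Matrix I I ℚ) x = x := by
  funext τ r
  rw [oM_apply, Finset.sum_eq_single r]
  · simp
  · intro s _ hs
    rw [Matrix.one_apply_ne (Ne.symm hs), zero_smul]
  · simp

theorem oM_oL (M : Matrix I I ℚ) (m : V →ₗ[ℚ] V') (x : W V) : oM M (oL m x) = oL m (oM M x) := by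
  funext τ r
  simp only [oM_apply, oL_apply, map_sum, map_smul]

theorem oL_oL (m' : V' →ₗ[ℚ] V'') (m : V →ₗ[ℚ] V') (x : W V) :
    oL m' (oL m x) = oL (m' ∘ₗ m) x := rfl

theorem isT_A : IsT (oM mA : W V →ₗ[ℚ] W V) := isT_rm 0
theorem isT_B : IsT (oM mB : W V →ₗ[ℚ] W V) := isT_rm 1
theorem isT_Z : IsT (oM mZ : W V →ₗ[ℚ] W V) := isT_rm 2
theorem isT_F : IsT (oM mF : W V →ₗ[ℚ] W V) := isT_rm 3
theorem isT_X : IsT (oM mX : W V →ₗ[ℚ] W V) := isT_rm 4
theorem isT_Y1 : IsT (oM mY1 : W V →ₗ[ℚ] W V) := isT_rm 5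
theorem isT_Y2 : IsT (oM mY2 : W V →ₗ[ℚ] W V) := isT_rm 6

theorem isT_oa (S : SL V) : IsT (oa S) := isT_A.sub ((isT_oL _).comp isT_B)

theorem isT_oz (S : SL V) : IsT (oz S) :=
  (isT_Z.sub ((isT_oL _).comp isT_F)).sub ((isT_oL _).comp isT_X)

theorem isT_ok : IsT (ok : W V →ₗ[ℚ] W V) := by
  intro t x
  simp only [ok, oM_mul]
  rw [isT_B, isT_F, isT_X]

theorem isT_oY (P Q : V →ₗ[ℚ] V') : IsT (oY P Q) :=
  ((isT_oL _).comp isT_Y1).add ((isT_oL _).comp isT_Y2)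

/-! ### Graded pieces -/

/-- The part of `W V` with source `(i, g)`. -/
def Wg (V : Type) [AddCommGroup V] [Module ℚ V] (i : ZMod 2) (g : ℤ) : Submodule T (W V) where
  carrier := {x | ∀ τ r, x τ r ≠ 0 → sI τ r = i ∧ sG τ r = g}
  add_mem' := by
    intro x y hx hy τ r h
    by_cases h1 : x τ r = 0
    · by_cases h2 : y τ r = 0
      · exact absurd (show x τ r + y τ r = 0 by rw [h1, h2, add_zero]) h
      · exact hy τ r h2
    · exact hx τ r h1
  zero_mem' := fun τ r h => absurd rfl h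
  smul_mem' := by
    intro t x hx τ r h
    have h' : (∑ q : J, t.mat (τ, r) q • x q.1 q.2) ≠ 0 := h
    obtain ⟨q, -, hq⟩ := Finset.exists_ne_zero_of_sum_ne_zero h'
    have h1 := t.src (τ, r) q (fun h0 => hq (by rw [h0, zero_smul]))
    have h2 := hx q.1 q.2 (fun h0 => hq (by rw [h0, smul_zero]))
    exact ⟨h1.1.trans h2.1, h1.2.trans h2.2⟩

/-! ### The complexes `C` -/

/-- three copies -/
abbrev W3 (V : Type) : Type := W V × W V × W V

/-- The differential `C (n + 1) → C n` (before truncation), as a `ℚ`-linear map. -/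
def dCq (S : SL V) (n : ℕ) : W3 V →ₗ[ℚ] W3 V where
  toFun x := (oa S x.1 + oz S x.2.1 + (n : ℚ) • ok x.2.2,
    if n = 0 then 0 else oa S x.2.1 + oz S x.2.2, if n < 2 then 0 else oa S x.2.2)
  map_add' x y := by
    refine Prod.ext ?_ (Prod.ext ?_ ?_)
    · simp only [Prod.fst_add, Prod.snd_add, map_add, smul_add]; abel
    · simp only [Prod.fst_add, Prod.snd_add, map_add]; split_ifs <;> abel
    · simp only [Prod.snd_add, map_add]; split_ifs <;> abel
  map_smul' c x := by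
    refine Prod.ext ?_ (Prod.ext ?_ ?_)
    · simp only [Prod.smul_fst, Prod.smul_snd, map_smul, smul_add, RingHom.id_apply,
        smul_comm (n : ℚ) c]
    · simp only [Prod.smul_fst, Prod.smul_snd, map_smul, RingHom.id_apply]
      split_ifs <;> simp
    · simp only [Prod.smul_snd, map_smul, RingHom.id_apply]
      split_ifs <;> simp

theorem isT_dCq (S : SL V) (n : ℕ) : IsT (dCq S n) := by
  intro t x
  refine Prod.ext ?_ (Prod.ext ?_ ?_)
  · show oa S (t • x.1) + oz S (t • x.2.1) + (n : ℚ) • ok (t • x.2.2) =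
      t • (oa S x.1 + oz S x.2.1 + (n : ℚ) • ok x.2.2)
    rw [isT_oa, isT_oz, isT_ok, smul_add, smul_add, smul_comm (n : ℚ) t]
  · show (if n = 0 then 0 else oa S (t • x.2.1) + oz S (t • x.2.2)) =
      t • (if n = 0 then 0 else oa S x.2.1 + oz S x.2.2)
    rw [isT_oa, isT_oz]
    split_ifs <;> simp
  · show (if n < 2 then 0 else oa S (t • x.2.2)) = t • (if n < 2 then 0 else oa S x.2.2)
    rw [isT_oa]
    split_ifs <;> simp

/-- The differential `C (n + 1) → C n`. -/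
def dC (S : SL V) (n : ℕ) : W3 V →ₗ[T] W3 V := mkT (dCq S n) (isT_dCq S n)

theorem dC_apply (S : SL V) (n : ℕ) (x : W3 V) :
    dC S n x = (oa S x.1 + oz S x.2.1 + (n : ℚ) • ok x.2.2,
      if n = 0 then 0 else oa S x.2.1 + oz S x.2.2, if n < 2 then 0 else oa S x.2.2) := rfl

/-- The term `C n` of the complex with base degree `γ`. -/
def Cg (V : Type) [AddCommGroup V] [Module ℚ V] (γ : ℤ) (n : ℕ) : Submodule T (W3 V) where
  carrier := {x | x.1 ∈ Wg V n γ ∧ (x.2.1 ∈ Wg V (n + 1) (γ + 2) ∧ (n = 0 → x.2.1 = 0)) ∧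
    (x.2.2 ∈ Wg V n (γ + 4) ∧ (n < 2 → x.2.2 = 0))}
  add_mem' := by
    rintro x y ⟨h1, ⟨h2, h3⟩, ⟨h4, h5⟩⟩ ⟨k1, ⟨k2, k3⟩, ⟨k4, k5⟩⟩
    exact ⟨add_mem h1 k1, ⟨add_mem h2 k2, fun h => by
      show x.2.1 + y.2.1 = 0
      rw [h3 h, k3 h, add_zero]⟩, ⟨add_mem h4 k4, fun h => by
      show x.2.2 + y.2.2 = 0
      rw [h5 h, k5 h, add_zero]⟩⟩
  zero_mem' := ⟨zero_mem _, ⟨zero_mem _, fun _ => rfl⟩, ⟨zero_mem _, fun _ => rfl⟩⟩
  smul_mem' := by
    rintro t x ⟨h1, ⟨h2, h3⟩, ⟨h4, h5⟩⟩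
    exact ⟨Submodule.smul_mem _ t h1, ⟨Submodule.smul_mem _ t h2, fun h => by
      show t • x.2.1 = 0
      rw [h3 h, smul_zero]⟩, ⟨Submodule.smul_mem _ t h4, fun h => by
      show t • x.2.2 = 0
      rw [h5 h, smul_zero]⟩⟩

/-! ### The complexes `F` -/

/-- `Y` on triples -/
def Y3 (P Q : V →ₗ[ℚ] V') : W3 V →ₗ[T] W3 V' :=
  (mkT (oY P Q) (isT_oY P Q)).prodMap
    ((mkT (oY P Q) (isT_oY P Q)).prodMap (mkT (oY P Q) (isT_oY P Q)))

theorem Y3_apply (P Q : V →ₗ[ℚ] V') (x : W3 V) :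
    Y3 P Q x = (oY P Q x.1, oY P Q x.2.1, oY P Q x.2.2) := rfl

/-- The differential `F (n + 1) → F n`: `U` is the representation at `w = 0`, `U'` at `w = 1`,
and `P, Q : U' → U`. -/
def dF {U U' : Type} [AddCommGroup U] [Module ℚ U] [AddCommGroup U'] [Module ℚ U']
    (S : SL U) (S' : SL U') (P Q : U' →ₗ[ℚ] U) : ℕ → (W3 U × W3 U' →ₗ[T] W3 U × W3 U')
  | 0 => ((dC S 0).coprod (Y3 P Q)).prod 0
  | k + 1 => ((dC S (k + 1)).coprod (Y3 P Q)).prod (-(dC S' k) ∘ₗ LinearMap.snd T _ _)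

/-- The term `F n`. -/
def Fg (U U' : Type) [AddCommGroup U] [Module ℚ U] [AddCommGroup U'] [Module ℚ U'] :
    ℕ → Submodule T (W3 U × W3 U')
  | 0 => (Cg U 0 0).prod ⊥
  | k + 1 => (Cg U 0 (k + 1)).prod (Cg U' (-3) k)

/-! ### The representations -/

/-- Homogeneous polynomials of degree `m` in `p, q`: the coefficient of `p ^ (m - k) q ^ k` is
`x k`. -/
def VmS (m : ℕ) : Submodule ℚ (ℕ → ℚ) where
  carrier := {x | ∀ k, m < k → x k = 0}
  add_mem' := by
    intro x y hx hy k hk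
    show x k + y k = 0
    rw [hx k hk, hy k hk, add_zero]
  zero_mem' := fun k _ => rfl
  smul_mem' := by
    intro c x hx k hk
    show c * x k = 0
    rw [hx k hk, mul_zero]

/-- Homogeneous polynomials of degree `m` in `p, q`. -/
def Vm (m : ℕ) : Type := VmS m

instance (m : ℕ) : AddCommGroup (Vm m) := inferInstanceAs (AddCommGroup (VmS m))
instance (m : ℕ) : Module ℚ (Vm m) := inferInstanceAs (Module ℚ (VmS m))

/-- the coefficients -/
def Vm.c {m : ℕ} (x : Vm m) : ℕ → ℚ := (show VmS m from x).1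

/-- constructor -/
def Vm.mk {m : ℕ} (x : ℕ → ℚ) (h : ∀ k, m < k → x k = 0) : Vm m := (⟨x, h⟩ : VmS m)

theorem Vm.ext {m : ℕ} {x y : Vm m} (h : ∀ k, x.c k = y.c k) : x = y := Subtype.ext (funext h)
theorem Vm.out {m : ℕ} (x : Vm m) (k : ℕ) (h : m < k) : x.c k = 0 := (show VmS m from x).2 k h
theorem Vm.c_mk {m : ℕ} (x : ℕ → ℚ) (h : ∀ k, m < k → x k = 0) : (Vm.mk x h).c = x := rfl
theorem Vm.c_add {m : ℕ} (x y : Vm m) (k : ℕ) : (x + y).c k = x.c k + y.c k := rfl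
theorem Vm.c_sub {m : ℕ} (x y : Vm m) (k : ℕ) : (x - y).c k = x.c k - y.c k := rfl
theorem Vm.c_neg {m : ℕ} (x : Vm m) (k : ℕ) : (-x).c k = -x.c k := rfl
theorem Vm.c_zero {m : ℕ} (k : ℕ) : (0 : Vm m).c k = 0 := rfl
theorem Vm.c_smul {m : ℕ} (a : ℚ) (x : Vm m) (k : ℕ) : (a • x).c k = a * x.c k := rfl

/-- `∂/∂p` -/
def vP (m : ℕ) : Vm (m + 1) →ₗ[ℚ] Vm m where
  toFun x := Vm.mk (fun k => ((m : ℚ) + 1 - k) * x.c k) (fun k hk => by
    rcases Nat.lt_or_ge (m + 1) k with h | h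
    · show _ * x.c k = 0
      rw [x.out k h, mul_zero]
    · have : k = m + 1 := by omega
      subst this
      show ((m : ℚ) + 1 - ((m + 1 : ℕ) : ℚ)) * _ = 0
      push_cast; ring)
  map_add' x y := by
    refine Vm.ext fun k => ?_
    show _ * (x.c k + y.c k) = _ * x.c k + _ * y.c k
    ring
  map_smul' c x := by
    refine Vm.ext fun k => ?_
    show _ * (c * x.c k) = c * (_ * x.c k)
    ring

/-- `∂/∂q` -/
def vQ (m : ℕ) : Vm (m + 1) →ₗ[ℚ] Vm m where
  toFun x := Vm.mk (fun k => ((k : ℚ) + 1) * x.c (k + 1)) (fun k hk => by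
    show _ * x.c (k + 1) = 0
    rw [x.out (k + 1) (by omega), mul_zero])
  map_add' x y := by
    refine Vm.ext fun k => ?_
    show _ * (x.c (k + 1) + y.c (k + 1)) =
      _ * x.c (k + 1) + _ * y.c (k + 1)
    ring
  map_smul' c x := by
    refine Vm.ext fun k => ?_
    show _ * (c * x.c (k + 1)) = c * (_ * x.c (k + 1))
    ring

/-- `E = p ∂/∂q` -/
def vE (m : ℕ) : Vm m →ₗ[ℚ] Vm m where
  toFun x := Vm.mk (fun k => ((k : ℚ) + 1) * x.c (k + 1)) (fun k hk => by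
    show _ * x.c (k + 1) = 0
    rw [x.out (k + 1) (by omega), mul_zero])
  map_add' x y := by
    refine Vm.ext fun k => ?_
    show _ * (x.c (k + 1) + y.c (k + 1)) =
      _ * x.c (k + 1) + _ * y.c (k + 1)
    ring
  map_smul' c x := by
    refine Vm.ext fun k => ?_
    show _ * (c * x.c (k + 1)) = c * (_ * x.c (k + 1))
    ring

/-- `H = p ∂/∂p - q ∂/∂q` -/
def vH (m : ℕ) : Vm m →ₗ[ℚ] Vm m where
  toFun x := Vm.mk (fun k => ((m : ℚ) - 2 * k) * x.c k) (fun k hk => by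
    show _ * x.c k = 0
    rw [x.out k hk, mul_zero])
  map_add' x y := by
    refine Vm.ext fun k => ?_
    show _ * (x.c k + y.c k) = _ * x.c k + _ * y.c k
    ring
  map_smul' c x := by
    refine Vm.ext fun k => ?_
    show _ * (c * x.c k) = c * (_ * x.c k)
    ring

/-- the sequence of the coefficients of `F x` -/
def fF (m : ℕ) (x : ℕ → ℚ) : ℕ → ℚ
  | 0 => 0
  | k + 1 => ((m : ℚ) - k) * x k

/-- `F = q ∂/∂p` -/
def vF (m : ℕ) : Vm m →ₗ[ℚ] Vm m where
  toFun x := Vm.mk (fF m x.c) (fun k hk => by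
    obtain ⟨j, rfl⟩ : ∃ j, k = j + 1 := ⟨k - 1, by omega⟩
    show ((m : ℚ) - j) * x.c j = 0
    rcases Nat.lt_or_ge m j with h | h
    · rw [x.out j h, mul_zero]
    · have : j = m := by omega
      subst this
      rw [sub_self, zero_mul])
  map_add' x y := by
    refine Vm.ext fun k => ?_
    cases k with
    | zero => exact (add_zero (0 : ℚ)).symm
    | succ k =>
      show _ * (x.c k + y.c k) = _ * x.c k + _ * y.c k
      ring
  map_smul' c x := by
    refine Vm.ext fun k => ?_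
    cases k with
    | zero => exact (mul_zero c).symm
    | succ k =>
      show _ * (c * x.c k) = c * (_ * x.c k)
      ring

/-- the representation on `Vm m` -/
def SV (m : ℕ) : SL (Vm m) where
  e := vE m
  f := vF m
  h := vH m
  ef := by
    refine LinearMap.ext fun x => Vm.ext fun k => ?_
    cases k with
    | zero =>
      show ((0 : ℕ) + 1 : ℚ) * (((m : ℚ) - (0 : ℕ)) * x.c 0) - 0 =
        ((m : ℚ) - 2 * (0 : ℕ)) * x.c 0
      push_cast; ring
    | succ k =>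
      show (((k + 1 : ℕ) : ℚ) + 1) * (((m : ℚ) - (k + 1 : ℕ)) * x.c (k + 1)) -
        ((m : ℚ) - k) * (((k : ℚ) + 1) * x.c (k + 1)) =
        ((m : ℚ) - 2 * (k + 1 : ℕ)) * x.c (k + 1)
      push_cast; ring
  he := by
    refine LinearMap.ext fun x => Vm.ext fun k => ?_
    show ((m : ℚ) - 2 * k) * (((k : ℚ) + 1) * x.c (k + 1)) -
      ((k : ℚ) + 1) * (((m : ℚ) - 2 * (k + 1 : ℕ)) * x.c (k + 1)) =
      (2 : ℚ) * (((k : ℚ) + 1) * x.c (k + 1))
    push_cast; ring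
  hf := by
    refine LinearMap.ext fun x => Vm.ext fun k => ?_
    cases k with
    | zero =>
      show ((m : ℚ) - 2 * (0 : ℕ)) * 0 - 0 = -((2 : ℚ) * 0)
      ring
    | succ k =>
      show ((m : ℚ) - 2 * (k + 1 : ℕ)) * (((m : ℚ) - k) * x.c k) -
        ((m : ℚ) - k) * (((m : ℚ) - 2 * k) * x.c k) =
        -((2 : ℚ) * (((m : ℚ) - k) * x.c k))
      push_cast; ring

/-! ### The modules `Yq m` and the module `X` -/

/-- the ambient module of the complex `F` number `m` -/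
abbrev Zm (m : ℕ) : Type := W3 (Vm m) × W3 (Vm (m + 1))

/-- the differential of the complex number `m` -/
def dm (m n : ℕ) : Zm m →ₗ[T] Zm m := dF (SV m) (SV (m + 1)) (vP m) (vQ m) n

/-- the terms of the complex number `m` -/
def Fm (m n : ℕ) : Submodule T (Zm m) := Fg (Vm m) (Vm (m + 1)) n

/-- `Y^(m)`, the cokernel of `F 1 → F 0` -/
abbrev Yq (m : ℕ) : Type := ↥(Fm m 0) ⧸ (((Fm m 1).map (dm m 0)).comap (Fm m 0).subtype)

/-- The module of the counterexample. -/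
abbrev X : Type := Yq 0

/-- The connecting map `F^(m+2)_0 → F^(m)_3`, `x ↦ (0; 0, κ Y x, z Y x)`. -/
def tau (m : ℕ) : Zm (m + 2) →ₗ[T] Zm m :=
  let Y : W (Vm (m + 2)) →ₗ[T] W (Vm (m + 1)) := mkT _ (isT_oY (vP (m + 1)) (vQ (m + 1)))
  let p : Zm (m + 2) →ₗ[T] W (Vm (m + 2)) := LinearMap.fst T _ _ ∘ₗ LinearMap.fst T _ _
  (0 : Zm (m + 2) →ₗ[T] W3 (Vm m)).prod ((0 : Zm (m + 2) →ₗ[T] W (Vm (m + 1))).prod
    ((mkT ok isT_ok ∘ₗ Y ∘ₗ p).prod (mkT (oz (SV (m + 1))) (isT_oz _) ∘ₗ Y ∘ₗ p)))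

end Run7.h433.Nak
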