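/-
INTERFACE of the project COUNTEREXAMPLE TO THE NAKAYAMA CONJECTURE (helper433).
Every piece is a closed proposition `S_<NAME>`; the proofs are in the comments.  A piece which
needs another piece takes it as a hypothesis, e.g. `theorem kos (h : S_VS) : S_KOS`.

Standing notation in the comments, for `S : SL V` (see Defs.lean):
`a = oa S`, `z = oz S`, `k = ok`, `D = oda` (contraction against alpha), `E = odz` (contraction
against zeta), `Y = oY P Q`.  A product `mX * mF * mB` of right multiplications applies `mB` first,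
it is the right multiplication by the word `beta phi chi`.
-/
import Pool.Agent.Run7.h433.Nak.Defs2

set_option autoImplicit false

open CategoryTheory

namespace Run7.h433.Nak

/-! ## OPS: identities between the operators (from the matrix identities of Rel.lean)

Expand `oa, oz, ok, oY`, use `oM_mul, oM_oL, oL_oL, ...` and the matrix relations `rel_*`.
Example: `a a = (mA - e mB)(mA - e mB) = mA mA - e (mA mB + mB mA) + e e mB mB = 0`;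
`a z + z a = (mA mZ + mZ mA) - f (mA mF + mF mA) - h (mA mX + mX mA) - e (mB mZ + mZ mB)
  + (e f) mB mF + (f e) mF mB + (e h) mB mX + (h e) mX mB
  = h mF mB - 2 e mX mB - (e f - f e) mF mB + (h e - e h) mX mB = 0`;
`z z = mZ mZ + 2 f mX mF + (h f - f h) mX mF = mZ mZ = - mA mX mF mB = - a k`. -/
structure Ops {V : Type} [AddCommGroup V] [Module ℚ V] (S : SL V) : Prop where
  aa : ∀ x : W V, oa S (oa S x) = 0
  az : ∀ x : W V, oa S (oz S x) = -oz S (oa S x)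
  zz : ∀ x : W V, oz S (oz S x) = -oa S (ok x)
  ka : ∀ x : W V, ok (oa S x) = -oa S (ok x)
  kz : ∀ x : W V, ok (oz S x) = -oz S (ok x)
  kk : ∀ x : W V, ok (ok x) = 0
  Da : ∀ x : W V, oda (oa S x) = x - oa S (oda x)
  Dz : ∀ x : W V, oda (oz S x) = -oz S (oda x) - ok (odz x)
  Dk : ∀ x : W V, oda (ok x) = -ok (oda x)
  Ea : ∀ x : W V, odz (oa S x) = -oa S (odz x)
  Ez : ∀ x : W V, odz (oz S x) = x - oz S (odz x)
  Ek : ∀ x : W V, odz (ok x) = -ok (odz x)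
  DD : ∀ x : W V, oda (oda x) = 0
  EE : ∀ x : W V, odz (odz x) = 0
  ED : ∀ x : W V, odz (oda x) = -oda (odz x)

def S_OPS : Prop := ∀ (V : Type) [AddCommGroup V] [Module ℚ V] (S : SL V), Ops S

/-! ## OPSY: identities for `Y` -/

/-- Relations between `P, Q : V' → V` and the two representations. -/
structure YRel {V V' : Type} [AddCommGroup V] [Module ℚ V] [AddCommGroup V'] [Module ℚ V']
    (S' : SL V') (S : SL V) (P Q : V' →ₗ[ℚ] V) : Prop where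
  pe : P ∘ₗ S'.e - S.e ∘ₗ P = Q
  qe : Q ∘ₗ S'.e = S.e ∘ₗ Q
  pf : P ∘ₗ S'.f = S.f ∘ₗ P
  qf : Q ∘ₗ S'.f - S.f ∘ₗ Q = P
  ph : P ∘ₗ S'.h - S.h ∘ₗ P = P
  qh : Q ∘ₗ S'.h - S.h ∘ₗ Q = -Q

/-- `Y` commutes with the operators. -/
structure OpsY {V V' : Type} [AddCommGroup V] [Module ℚ V] [AddCommGroup V'] [Module ℚ V']
    (S' : SL V') (S : SL V) (P Q : V' →ₗ[ℚ] V) : Prop where
  Ya : ∀ x : W V', oY P Q (oa S' x) = oa S (oY P Q x)
  Yz : ∀ x : W V', oY P Q (oz S' x) = oz S (oY P Q x)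
  Yk : ∀ x : W V', oY P Q (ok x) = ok (oY P Q x)
  YD : ∀ x : W V', oY P Q (oda x) = oda (oY P Q x)
  YE : ∀ x : W V', oY P Q (odz x) = odz (oY P Q x)

/-- `Y a = (P mY1 + Q mY2)(mA - e' mB) = mA (P mY1 + Q mY2) + Q mB mY1 - (P e') mB mY1
  - (Q e') mB mY2` and `P e' = e P + Q`, `Q e' = e Q`; similarly `Y z`. The last claim:
`Y' Y = (P' Q) mY1 mY2 + (Q' P) mY2 mY1 = (P' Q - Q' P) mY1 mY2 = 0`. -/
def S_OPSY : Prop :=
  (∀ (V V' : Type) [AddCommGroup V] [Module ℚ V] [AddCommGroup V'] [Module ℚ V']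
    (S' : SL V') (S : SL V) (P Q : V' →ₗ[ℚ] V), YRel S' S P Q → OpsY S' S P Q) ∧
  (∀ (V V' V'' : Type) [AddCommGroup V] [Module ℚ V] [AddCommGroup V'] [Module ℚ V']
    [AddCommGroup V''] [Module ℚ V''] (P Q : V'' →ₗ[ℚ] V') (P' Q' : V' →ₗ[ℚ] V),
    P' ∘ₗ Q = Q' ∘ₗ P → ∀ x : W V'', oY P' Q' (oY P Q x) = 0)

/-! ## GRD: degrees of the operators

`x ∈ Wg V i g` means that `x` is supported on the pairs `(τ, r)` with source degree `(i, g)`.  For a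
matrix `M` of the tables an entry `M r s ≠ 0` forces `nI r = nI s + c` in `ZMod 2` and
`nG r = nG s + c'` (check it once for each of the tables 0,...,15 with a Boolean test by
`decide +kernel` on `row n j`), and the source degrees are `vI τ + nI r` and `vG τ - nG r`. -/
structure Grd (V : Type) [AddCommGroup V] [Module ℚ V] : Prop where
  a : ∀ (S : SL V) (i : ZMod 2) (g : ℤ) (x : W V), x ∈ Wg V i g → oa S x ∈ Wg V (i + 1) g
  z : ∀ (S : SL V) (i : ZMod 2) (g : ℤ) (x : W V), x ∈ Wg V i g → oz S x ∈ Wg V i (g - 2)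
  k : ∀ (i : ZMod 2) (g : ℤ) (x : W V), x ∈ Wg V i g → ok x ∈ Wg V (i + 1) (g - 4)
  D : ∀ (i : ZMod 2) (g : ℤ) (x : W V), x ∈ Wg V i g → oda x ∈ Wg V (i + 1) g
  E : ∀ (i : ZMod 2) (g : ℤ) (x : W V), x ∈ Wg V i g → odz x ∈ Wg V i (g + 2)
  A : ∀ (i : ZMod 2) (g : ℤ) (x : W V), x ∈ Wg V i g → oM mA x ∈ Wg V (i + 1) g
  B : ∀ (i : ZMod 2) (g : ℤ) (x : W V), x ∈ Wg V i g → oM mB x ∈ Wg V (i + 1) g
  Z : ∀ (i : ZMod 2) (g : ℤ) (x : W V), x ∈ Wg V i g → oM mZ x ∈ Wg V i (g - 2)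
  F : ∀ (i : ZMod 2) (g : ℤ) (x : W V), x ∈ Wg V i g → oM mF x ∈ Wg V i (g - 2)
  X : ∀ (i : ZMod 2) (g : ℤ) (x : W V), x ∈ Wg V i g → oM mX x ∈ Wg V i (g - 2)
  Y1 : ∀ (i : ZMod 2) (g : ℤ) (x : W V), x ∈ Wg V i g → oM mY1 x ∈ Wg V i (g + 3)
  Y2 : ∀ (i : ZMod 2) (g : ℤ) (x : W V), x ∈ Wg V i g → oM mY2 x ∈ Wg V i (g + 3)
  Y : ∀ (V' : Type) [AddCommGroup V'] [Module ℚ V'] (P Q : V →ₗ[ℚ] V') (i : ZMod 2) (g : ℤ)
    (x : W V), x ∈ Wg V i g → oY P Q x ∈ Wg V' i (g + 3)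
  L : ∀ (V' : Type) [AddCommGroup V'] [Module ℚ V'] (P : V →ₗ[ℚ] V') (i : ZMod 2) (g : ℤ)
    (x : W V), x ∈ Wg V i g → oL P x ∈ Wg V' i g

def S_GRD : Prop := ∀ (V : Type) [AddCommGroup V] [Module ℚ V], Grd V

/-! ## VS: the representations `Vm m` (polynomials in `p, q`, `P = ∂/∂p`, `Q = ∂/∂q`,
`e = p ∂/∂q`, `f = q ∂/∂p`, `h = p ∂/∂p - q ∂/∂q`), all in coordinates `Vm.c`. -/
structure VSt : Prop where
  yrel : ∀ m, YRel (SV (m + 1)) (SV m) (vP m) (vQ m)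
  pq : ∀ m, vP m ∘ₗ vQ (m + 1) = vQ m ∘ₗ vP (m + 1)
  inj : ∀ m (v : Vm (m + 1)), vP m v = 0 → vQ m v = 0 → v = 0
  surj : ∀ m (v : Vm m), ∃ u : Vm (m + 1), vP m u = v
  poin : ∀ m (u1 u2 : Vm (m + 1)), vQ m u1 = vP m u2 →
    ∃ v : Vm (m + 2), vP (m + 1) v = u1 ∧ vQ (m + 1) v = u2
  fin : ∀ m, Module.Finite ℚ (Vm m)
  e0 : (SV 0).e = 0
  f0 : (SV 0).f = 0
  h0 : (SV 0).h = 0

def S_VS : Prop := VSt

/-! ## SL2: exactness of the complexes of the functionals (Chevalley-Eilenberg for `sl₂`)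

For `m = 0` we have `e = f = h = 0` and everything is immediate
(H1: `yχ = 0`, `2 x = 0`, `-2 yφ = 0`, take `x0 = 0`; H2: `x = bχ / 2`, `yχ = -bφ`,
`yφ = -x2 / 2`).  For `m ≥ 1` the Casimir operator `e f + f e + h h / 2` acts on `Vm m` by the
scalar `c = m (m + 2) / 2 ≠ 0`, and one gets explicit homotopies (or one uses that `Vm m` is
irreducible).  Here `ψ ∘ₗ e` means first `e`. -/
structure Sl2 (U : Type) [AddCommGroup U] [Module ℚ U] : Prop where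
  H0 : ∀ m (x : Vm (m + 1) →ₗ[ℚ] U), x ∘ₗ vE (m + 1) = 0 → x ∘ₗ vF (m + 1) = 0 →
    x ∘ₗ vH (m + 1) = 0 → x = 0
  H1 : ∀ m (x yf yx : Vm m →ₗ[ℚ] U), x ∘ₗ vF m - yf ∘ₗ vE m - yx = 0 →
    (2 : ℚ) • x + x ∘ₗ vH m - yx ∘ₗ vE m = 0 →
    -((2 : ℚ) • yf) + yf ∘ₗ vH m - yx ∘ₗ vF m = 0 →
    ∃ x0 : Vm m →ₗ[ℚ] U, x = -(x0 ∘ₗ vE m) ∧ yf = -(x0 ∘ₗ vF m) ∧ yx = -(x0 ∘ₗ vH m)
  H2 : ∀ m (bf bx x2 : Vm m →ₗ[ℚ] U), -(bf ∘ₗ vH m) + bx ∘ₗ vF m - x2 ∘ₗ vE m = 0 →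
    ∃ x yf yx : Vm m →ₗ[ℚ] U, bf = x ∘ₗ vF m - yf ∘ₗ vE m - yx ∧
      bx = (2 : ℚ) • x + x ∘ₗ vH m - yx ∘ₗ vE m ∧
      x2 = -((2 : ℚ) • yf) + yf ∘ₗ vH m - yx ∘ₗ vF m
  H3 : ∀ m (w : Vm (m + 1) →ₗ[ℚ] U), ∃ bf bx x2 : Vm (m + 1) →ₗ[ℚ] U,
    w = -(bf ∘ₗ vH (m + 1)) + bx ∘ₗ vF (m + 1) - x2 ∘ₗ vE (m + 1)

def S_SL2 : Prop := ∀ (U : Type) [AddCommGroup U] [Module ℚ U], Sl2 U

/-! ## KOS: the Koszul complexes of the crit elements -/

/-- `u` has source degree `(0, g)` and is killed by both contractions (equivalently: it is supported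
on the words without `alpha` and `zeta`). -/
def IsKr (V : Type) [AddCommGroup V] [Module ℚ V] (g : ℤ) (u : W V) : Prop :=
  u ∈ Wg V 0 g ∧ oda u = 0 ∧ odz u = 0

/-- Proof.  (1) crit lemma: `oda u = 0 ∧ odz u = 0 ↔ ∀ τ r, (r : ℕ) % 4 ≠ 0 → u τ r = 0` (from
the tables: `dZ` sends `e_(2j+1)` to `e_(2j)` and `e_(2j)` to 0; `dA` sends `e_(4j+2)` to
`e_(4j)` and `e_(4j)` to 0).
(2) Degrees: let `r = 32 l + 16 b + 8 d + 4 e` and let `(τ, r)` have source degree `(0, g)`.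
For `g = -3`: `l = 0`.  For `g = 0`: `l ∈ {0,1,2}`, for `g = 3`: `l ∈ {1,2,3}`, for `g = 6`:
`l = 3`. (finite check over `Vt × I`)
(3) `y1, y2` commute with `beta, phi, chi`, so on crit words (tables): `mY1 e_s = e_(s+32)`,
`mY2 e_s = e_(s+64)` for `s < 32`, `mY2 e_(s+32) = e_(s+96)`, `mY1 e_(s+64) = - e_(s+96)`,
all other `mY1`, `mY2` images of crit words are 0 (`s % 4 = 0`; signs to be checked in the tables).
(4) So at the vertex `τ` and `s < 32` the map `Y` is one of the maps of the exact sequence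
`0 → Vm (m+3) → Vm (m+2) ^ 2 → Vm (m+1) → 0`, `v ↦ (P v, Q v)`, `(u1, u2) ↦ Q u1 - P u2`
(up to sign); use S_VS. -/
structure Kos : Prop where
  K1 : ∀ m (u : W (Vm (m + 1))), IsKr (Vm (m + 1)) (-3) u → oY (vP m) (vQ m) u = 0 → u = 0
  K2 : ∀ m (u : W (Vm (m + 1))), IsKr (Vm (m + 1)) 0 u → oY (vP m) (vQ m) u = 0 →
    ∃ v : W (Vm (m + 2)), IsKr (Vm (m + 2)) (-3) v ∧ oY (vP (m + 1)) (vQ (m + 1)) v = u
  K3 : ∀ m (u : W (Vm (m + 1))), IsKr (Vm (m + 1)) 3 u → oY (vP m) (vQ m) u = 0 →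
    ∃ v : W (Vm (m + 2)), IsKr (Vm (m + 2)) 0 v ∧ oY (vP (m + 1)) (vQ (m + 1)) v = u
  K4 : ∀ m (u : W (Vm m)), IsKr (Vm m) 6 u →
    ∃ v : W (Vm (m + 1)), IsKr (Vm (m + 1)) 3 v ∧ oY (vP m) (vQ m) v = u

def S_KOS : Prop := Kos

/-! ## CEX: homology of the complexes `C` -/

/-- `q x = (1 - a D) (1 - z E) x` -/
def qS {V : Type} [AddCommGroup V] [Module ℚ V] (S : SL V) (x : W V) : W V :=
  (x - oz S (odz x)) - oa S (oda (x - oz S (odz x)))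

/-- `r x = E (1 - a D) x` -/
def rS {V : Type} [AddCommGroup V] [Module ℚ V] (S : SL V) (x : W V) : W V :=
  odz (x - oa S (oda x))

/-- Proofs (all from S_OPS, S_GRD; write `x = (x0, x1, x2)`):
* `dd`: direct, `a a = 0`, `a z = - z a`, `z z = - a k`, `k a = - a k`, `k z = - z k`.
* `ex` for `n = 0`: `x2 = 0` and `a x0 + z x1 = 0`.  Put `y1 = E x0`, `y2 = E x1`,
  `y0 = D (x0 - k y2 - z y1)`.  Apply `E` to the equation: `x1 = a y1 + z y2`.  Then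
  `a (x0 - z y1 - k y2) = - z x1 + z a y1 + z z y2 = 0`, and `a w = 0` gives `w = a D w`.
* `ex` for `n ≥ 2`: `a x0 + z x1 + n k x2 = 0`, `a x1 + z x2 = 0`, `a x2 = 0`.  Put `y2 = D x2`,
  `y1 = D (x1 - z y2)`, `y0 = D (x0 - z y1 - (n+1) k y2)`: `a y2 = x2`,
  `a (x1 - z y2) = a x1 + z x2 = 0`,
  `a (x0 - z y1 - (n+1) k y2) = a x0 + z (x1 - z y2) + (n+1) k x2 = a x0 + z x1 + n k x2 = 0`
  (as `- z z y2 = a k y2 = - k a y2 = - k x2`).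
* `q_iff`: if `q x = 0` take `y = (D (x - z E x), E x, 0)`.  Conversely
  `(1 - z E)(a y0 + z y1) = a (y0 - z E y0 - k E y1)` and `(1 - a D) a = 0`.
* `q_mod`: apply the same `y`.
* `r_iff` (degree 2, `n = 1`: `a x0 + z x1 + k x2 = 0`, `a x1 + z x2 = 0`): let
  `x2' = x2 - a D x2 = D a x2`.  Then `a (x1 - z D x2) + z x2' = 0`; apply `E`:
  `x2' = a (E (x1 - z D x2)) + z E x2'`.  If `r x2 = E x2' = 0` then `a x2 = a x2' = 0` and the
  proof of `ex` works (with `n = 1`).  Conversely `x2 = a y2` gives `x2' = 0`.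
* `rz`: both sides are `(1 - a D - z E - z a E D) x`. -/
structure Cex {V : Type} [AddCommGroup V] [Module ℚ V] (S : SL V) (γ : ℤ) : Prop where
  map : ∀ n x, x ∈ Cg V γ (n + 1) → dC S n x ∈ Cg V γ n
  dd : ∀ n x, dC S n (dC S (n + 1) x) = 0
  ex : ∀ n, n ≠ 1 → ∀ x ∈ Cg V γ (n + 1), dC S n x = 0 → ∃ y ∈ Cg V γ (n + 2), dC S (n + 1) y = x
  q_kr : ∀ x ∈ Wg V 0 γ, IsKr V γ (qS S x)
  q_id : ∀ u, IsKr V γ u → qS S u = u
  q_iff : ∀ x ∈ Wg V 0 γ, (qS S x = 0 ↔ ∃ y ∈ Cg V γ 1, dC S 0 y = (x, 0, 0))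
  q_mod : ∀ x ∈ Wg V 0 γ, ∃ y ∈ Cg V γ 1, dC S 0 y = (x - qS S x, 0, 0)
  r_kr : ∀ x ∈ Wg V 0 (γ + 4), IsKr V (γ + 6) (rS S x)
  r_iff : ∀ x ∈ Cg V γ 2, dC S 1 x = 0 → (rS S x.2.2 = 0 ↔ ∃ y ∈ Cg V γ 3, dC S 2 y = x)
  cyc_mem : ∀ u ∈ Wg V 0 (γ + 6), ((0, ok u, oz S u) : W3 V) ∈ Cg V γ 2
  cyc : ∀ u : W V, dC S 1 (0, ok u, oz S u) = 0
  rz : ∀ x : W V, rS S (oz S x) = qS S x
  r_cyc : ∀ u, IsKr V (γ + 6) u → rS S (oz S u) = u

def S_CEX : Prop := ∀ (V : Type) [AddCommGroup V] [Module ℚ V] (S : SL V) (γ : ℤ), Cex S γ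

/-! ## FEX: homology of the complexes `F` (use S_VS.yrel, S_VS.pq, S_OPSY, S_GRD, S_CEX, S_KOS)

Write `C = C(Vm m, 0)`, `C' = C(Vm (m+1), -3)`, elements of `F (n+1)` are pairs
`(x, x') ∈ C (n+1) × C' n`, with `d (x, x') = (dC x + Y3 x', - dC' x')`; `Y3` commutes with `dC`
(same index `n`), `Y q = q Y`, `Y r = r Y`; `c_u = (0, k u, z u)`.
* `n + 1 = 1`: `x' = (x0', 0, 0)`, `Y q x0' = q Y x0' = q (- (dC 0 x).1) = 0`, so `q x0' = 0` (K1),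
  `x' = dC' 0 y'`; `x + Y3 y'` is a cycle of `C 1`, `= dC 1 y`; then `(x, x') = d (y, - y')`.
* `n + 1 = 2`: `x' = dC' 1 y'`; `x + Y3 y'` is a cycle of `C 2`, `u = r (x + Y3 y').2.2` is
  `Y v` (K4), `x + Y3 y' - Y3 c_v = dC 2 y` (r_iff); then `(x, x') = d (y, - y' + c_v)`.
* `tex` (degree 3): `u = r x'.2.2` has `Y u = r (Y3 x').2.2 = r (- dC 2 x).2.2 = 0`, so `u = Y w`,
  `w ∈ Kr (Vm (m+2)) 0` (K3); `x' - c_u = dC' 2 y'`; `Y3 c_u = c_(Y u) = 0`, so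
  `x + Y3 y' = dC 3 y`; then `(x, x') = tau ((w, 0, 0), 0) + d (y, - y')`.
* `n + 1 ≥ 4`: `x' = dC' n y'`, `x + Y3 y' = dC (n+1) y`.
* `tiff`, direction `→` (`tau x' = d (b, b')`, `x' = ((w, 0, 0), 0)`): `c_(Y w) = - dC' 2 b'`, so
  `0 = r (z Y w) = q (Y w) = Y (q w)`, so `q w = Y v` with `v ∈ Kr (Vm (m+3)) (-3)` (K2), and
  `(w - q w, 0, 0) = dC 0 y` (q_mod).
* `tiff`, direction `←`: `w = a y0 + z y1 + Y y0''`, `Y w = a Y y0 + z Y y1`, `q (Y w) = 0` (q_iff),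
  so `r (z Y w) = 0`, so `c_(Y w) = dC' 2 y'` (r_iff, cyc), `Y3 y'` is a cycle of `C 3`, so
  `Y3 y' = dC 3 b`, and `tau x' = d (b, - y')`. -/
structure Fex : Prop where
  map : ∀ m n x, x ∈ Fm m (n + 1) → dm m n x ∈ Fm m n
  dd : ∀ m n x, x ∈ Fm m (n + 2) → dm m n (dm m (n + 1) x) = 0
  ex : ∀ m n x, n ≠ 2 → x ∈ Fm m (n + 1) → dm m n x = 0 → ∃ y ∈ Fm m (n + 2), dm m (n + 1) y = x
  tmem : ∀ m x, x ∈ Fm (m + 2) 0 → tau m x ∈ Fm m 3 ∧ dm m 2 (tau m x) = 0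
  tex : ∀ m x, x ∈ Fm m 3 → dm m 2 x = 0 →
    ∃ x' ∈ Fm (m + 2) 0, ∃ y ∈ Fm m 4, x = tau m x' + dm m 3 y
  tiff : ∀ m x, x ∈ Fm (m + 2) 0 →
    ((∃ y ∈ Fm m 4, dm m 3 y = tau m x) ↔ ∃ y ∈ Fm (m + 2) 1, dm (m + 2) 0 y = x)

def S_FEX : Prop := Fex

/-! ## LWS: left multiplications by words -/

/-- the tables of the left multiplication by the word number `r` -/
def wordL (r : ℕ) : List ℕ :=
  (if r / 32 % 2 = 1 then [12] else []) ++ (if r / 64 % 2 = 1 then [13] else []) ++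
  (if r / 16 % 2 = 1 then [8] else []) ++ (if r / 8 % 2 = 1 then [10] else []) ++
  (if r / 4 % 2 = 1 then [11] else []) ++ (if r / 2 % 2 = 1 then [7] else []) ++
  (if r % 2 = 1 then [9] else [])

/-- the tables of the right multiplication by the word number `r` -/
def wordR (r : ℕ) : List ℕ :=
  (if r % 2 = 1 then [2] else []) ++ (if r / 2 % 2 = 1 then [0] else []) ++
  (if r / 4 % 2 = 1 then [4] else []) ++ (if r / 8 % 2 = 1 then [3] else []) ++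
  (if r / 16 % 2 = 1 then [1] else []) ++ (if r / 64 % 2 = 1 then [6] else []) ++
  (if r / 32 % 2 = 1 then [5] else [])

/-- left multiplication by the word number `r` -/
def LW (r : I) : Matrix I I ℚ := ((wordL r).map mt).prod

/-- right multiplication by the word number `r` -/
def RW (r : I) : Matrix I I ℚ := ((wordR r).map mt).prod

/-- The form `L (x y)`: coefficient of the last basis element. `frob` is the Frobenius sign rule,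
`gram` the triangularity of the Gram matrix (to be found by a computation: with the numbering of the
words, the Gram matrix is triangular with respect to `r ↦ 127 - r` up to reordering; if
`gram` is awkward, prove `nondeg` in any other way). Use `prod_apply` of Mat.lean to evaluate and
`decide +kernel` over the 128 (or 128 x 128) cases. -/
structure Lws : Prop where
  /-- `LW r` applied to the unit is the word `r` -/
  l0 : ∀ r s : I, LW r s 0 = if s = r then 1 else 0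
  r0 : ∀ r s : I, RW r s 0 = if s = r then 1 else 0
  comm : ∀ (r : I) (g : Fin 7), LW r * rm g = rm g * LW r
  deg : ∀ r s t : I, LW r s t ≠ 0 →
    (nI s : ZMod 2) = (nI r : ZMod 2) + (nI t : ZMod 2) ∧ nG s = nG r + nG t
  soc : ∀ s t : I, t ≠ 0 → LW 127 s t = 0
  /-- `L (r t) = ± L (t r)`, sign `-` iff the degree `nG r` is odd -/
  frob : ∀ r t : I, LW r 127 t = (if (nG r) % 2 = 0 then 1 else -1) * LW t 127 r
  /-- the form is nondegenerate -/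
  nondeg : ∀ x : I → ℚ, (∀ r : I, ∑ t : I, LW r 127 t * x t = 0) → x = 0

def S_LWS : Prop := Lws

/-! ## TST: structure of `T` and generators of the modules `Wg` (from S_LWS) -/

/-- the element supported at `(τ, r)` with value `v` -/
def sg {V : Type} [AddCommGroup V] [Module ℚ V] (τ : Vt) (r : I) (v : V) : W V :=
  fun τ' r' => if τ' = τ ∧ r' = r then v else 0

/-- `t` is the element `E_(τ σ) ⊗ LW r` of `T` -/
def IsE (t : T) (τ σ : Vt) (r : I) : Prop :=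
  ∀ p q : J, t.mat p q = if p.1 = τ ∧ q.1 = σ then LW r p.2 q.2 else 0

/-- `uniq`: a matrix `N` commuting with the right multiplications and killing all `(σ, 0)` is zero,
as `(σ, s) = RW s (σ, 0)`.  `gen`: `x = ∑ (E_(τ σ) ⊗ LW r) • sg σ 0 (x τ r)`.
`sec`: for `x ∈ Wg ℚ (vI σ) (vG σ)` put `s x = ∑ x τ r • (E_(τ σ) ⊗ LW r)` (only the `(τ, r)` of the
right source degree); it is `T`-linear by `uniq`. -/
structure Tst : Prop where
  exE : ∀ (τ σ : Vt) (r : I), sI τ r = vI σ → sG τ r = vG σ → ∃ t : T, IsE t τ σ r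
  smE : ∀ (t : T) (τ σ : Vt) (r : I), IsE t τ σ r → ∀ (V : Type) [AddCommGroup V] [Module ℚ V]
    (v : V), t • (sg σ 0 v : W V) = sg τ r v
  uniq : ∀ t t' : T, (∀ σ : Vt, t • (sg σ 0 1 : W ℚ) = t' • sg σ 0 1) → t = t'
  /-- to check an identity between `T`-linear maps on `Wg V i g` it is enough to check generators -/
  gen : ∀ (V : Type) [AddCommGroup V] [Module ℚ V] (σ : Vt) (M : Type) [AddCommGroup M] [Module T M]
    (f f' : ↥(Wg V (vI σ) (vG σ)) →ₗ[T] M),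
    (∀ (v : V) (h : sg σ 0 v ∈ Wg V (vI σ) (vG σ)), f ⟨sg σ 0 v, h⟩ = f' ⟨sg σ 0 v, h⟩) → f = f'
  sg_mem : ∀ (V : Type) [AddCommGroup V] [Module ℚ V] (τ : Vt) (r : I) (v : V),
    sg τ r v ∈ Wg V (sI τ r) (sG τ r)
  sec : ∀ σ : Vt, ∃ s : ↥(Wg ℚ (vI σ) (vG σ)) →ₗ[T] T,
    ∀ x : ↥(Wg ℚ (vI σ) (vG σ)), s x • (sg σ 0 1 : W ℚ) = x.1

def S_TST : Prop := Tst

/-! ## PRJ: the terms of the complexes are projective (from S_TST, S_VS.fin)

`Fm m n` is a product of submodules `Wg V i g` with `(i, g) = (vI σ, vG σ)` for a vertex `σ`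
(`g ∈ {0, 2, 4, -3, -1, 1}`; or zero modules), `V` finite-dimensional; `Wg V i g ≃ (Wg ℚ i g) ^ d`
by coordinates and `Wg ℚ i g` is a direct summand of `T` by `sec`
(`x ↦ s x`, back: `t ↦ pr (t • sg σ 0 1)`; note `t • sg σ 0 1 ∈ Wg ℚ (vI σ) (vG σ)`). -/
def S_PRJ : Prop := ∀ m n, Module.Projective T ↥(Fm m n)

/-! ## SYM: `T` is a finite-dimensional symmetric algebra (from S_LWS, S_TST)

`lam t = ∑ τ, (-1) ^ (τ / 6) * t.mat (τ, 127) (τ, 0)`.  An element `t` of `T` has blocks: by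
uniqueness `t.mat (τ, ·) (σ, s) = ∑ r, t.mat (τ, r) (σ, 0) * LW r · s`; so
`lam (s t) = ∑ τ σ, ± L (s_(τ σ) t_(σ τ))`, and `frob` gives the symmetry because
`vG τ - vG σ` is even iff `τ / 6 = σ / 6`.  Nondegenerate: `nondeg` and multiplication by
`E_(τ σ) ⊗ LW r`, where `r` must have the right degree (the other `r` give `L (r x) = 0` for degree
reasons as `nI 127 = 0`, `nG 127 = 0`). -/
def S_SYM : Prop := Module.Finite ℚ T ∧ ∃ lam : T →ₗ[ℚ] ℚ,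
  (∀ s t : T, lam (s * t) = lam (t * s)) ∧ ∀ r : T, (∀ r' : T, lam (r' * r) = 0) → r = 0

/-! ## XRL, XIN, XCL: the module `X` -/

/-- projection to the graded piece (`T` preserves the source degree) -/
def prq (V : Type) [AddCommGroup V] [Module ℚ V] (i : ZMod 2) (g : ℤ) : W V →ₗ[ℚ] W V where
  toFun x := fun τ r => if sI τ r = i ∧ sG τ r = g then x τ r else 0
  map_add' x y := by
    funext τ r
    show (if sI τ r = i ∧ sG τ r = g then x τ r + y τ r else 0) =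
      (if sI τ r = i ∧ sG τ r = g then x τ r else 0) +
      (if sI τ r = i ∧ sG τ r = g then y τ r else 0)
    split_ifs <;> simp
  map_smul' c x := by
    funext τ r
    show (if sI τ r = i ∧ sG τ r = g then c • x τ r else 0) =
      c • (if sI τ r = i ∧ sG τ r = g then x τ r else 0)
    split_ifs <;> simp

theorem prq_apply (V : Type) [AddCommGroup V] [Module ℚ V] (i : ZMod 2) (g : ℤ) (x : W V)
    (τ : Vt) (r : I) : prq V i g x τ r = if sI τ r = i ∧ sG τ r = g then x τ r else 0 := rfl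

theorem isT_prq (V : Type) [AddCommGroup V] [Module ℚ V] (i : ZMod 2) (g : ℤ) :
    IsT (prq V i g) := by
  intro t x
  funext τ r
  rw [prq_apply, smul_def, smul_def, act_apply, act_apply]
  by_cases h : sI τ r = i ∧ sG τ r = g
  · rw [if_pos h]
    refine Finset.sum_congr rfl fun q _ => ?_
    by_cases h0 : t.mat (τ, r) q = 0
    · rw [h0, zero_smul, zero_smul]
    · have h1 := t.src (τ, r) q h0
      rw [prq_apply, if_pos ⟨h1.1.symm.trans h.1, h1.2.symm.trans h.2⟩]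
  · rw [if_neg h]
    symm
    refine Finset.sum_eq_zero fun q _ => ?_
    by_cases h0 : t.mat (τ, r) q = 0
    · rw [h0, zero_smul]
    · have h1 := t.src (τ, r) q h0
      rw [prq_apply, if_neg (fun h2 => h ⟨h1.1.trans h2.1, h1.2.trans h2.2⟩), smul_zero]

/-- the `T`-linear projection `W (Vm 0) → X` (projection to degree `(0, 0)` and quotient) -/
def xi : W (Vm 0) →ₗ[T] X :=
  (Submodule.mkQ _) ∘ₗ LinearMap.codRestrict (Fm 0 0)
    (((mkT (prq (Vm 0) 0 0) (isT_prq _ _ _)).prod (0 : W (Vm 0) →ₗ[T] W (Vm 0) × W (Vm 0))).prod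
      (0 : W (Vm 0) →ₗ[T] W3 (Vm 1))) (by
    intro x
    refine ⟨⟨?_, ⟨zero_mem _, fun _ => rfl⟩, ⟨zero_mem _, fun _ => rfl⟩⟩, rfl⟩
    intro τ r h
    have h' : (if sI τ r = 0 ∧ sG τ r = 0 then x τ r else 0) ≠ 0 := h
    split_ifs at h' with h1
    · exact ⟨by simpa using h1.1, h1.2⟩
    · exact absurd rfl h')

/-- the map `W V → X` given by the matrix `s` (a product of `mB, mF, mX`) and the functional `ψ` -/
def th {V : Type} [AddCommGroup V] [Module ℚ V] (s : Matrix I I ℚ) (ψ : V →ₗ[ℚ] Vm 0) (x : W V) :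
    X := xi (oM s (oL ψ x))

/-- XRL: relations in `X`.  `xi (oM mA x) = 0`, because `(prq x)·alpha = a (pr x)` is in the image of
`dm 0 0` (`e = f = h = 0` on `Vm 0`); for `y1, y2` use that `(vP 0, vQ 0) : Vm 1 → Vm 0 × Vm 0` is
bijective.  `onto`: `xi` is surjective, already from `Wg (Vm 0) 0 0`. -/
structure Xrl : Prop where
  A : ∀ x, xi (oM mA x) = 0
  Z : ∀ x, xi (oM mZ x) = 0
  Y1 : ∀ x, xi (oM mY1 x) = 0
  Y2 : ∀ x, xi (oM mY2 x) = 0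
  onto : ∀ ξ : X, ∃ x ∈ Wg (Vm 0) 0 0, xi x = ξ

def S_XRL : Prop := Xrl

/-- XKR: the kernel of `xi`: an element `x` of degree `(0, 0)` is killed by `xi` iff its
coefficients at the 8 pairs `(τ, s)`, `s = 16 b + 8 d + 4 e`, `τ = 2 (d + e) + b`, vanish.
Proof.  Let `N` be the kernel. The words ending with `zeta` or `alpha` (numbers `r` with
`r % 4 ≠ 0`) give elements of `N` by XRL, and the words `r = 32 l + s` with `l ≠ 0`, `s % 4 = 0` as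
well, because `y1, y2` commute with `beta, phi, chi`.  Among the pairs `(τ, r)` of source degree
`(0, 0)` with `r < 32`, `r % 4 = 0` there are exactly these 8.  Conversely the images of
`mA, mZ, mY1, mY2` have zero coefficients at the words `s` with `s < 32`, `s % 4 = 0` (tables). -/
def S_XKR : Prop := ∀ x ∈ Wg (Vm 0) 0 0,
  (xi x = 0 ↔ ∀ (τ : Vt) (r : I), (r : ℕ) < 32 → (r : ℕ) % 4 = 0 → x τ r = 0)

/-- XCL: the `T`-linear maps `Wg V i g → X` are given by functionals, uniquely (from S_TST, S_XKR,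
S_XRL, S_GRD).  A `T`-linear map `f` on `Wg V (vI σ) (vG σ)` is determined by the linear map
`v ↦ f (sg σ 0 v)`, with values in the elements `ξ` of `X` with `e_σ ξ = ξ` (`e_σ = E_(σ σ) ⊗ 1`),
i.e. the classes of the `x ∈ Wg (Vm 0) 0 0` supported at the vertex `σ`; by XKR these are zero for
the `σ ≥ 6` (`g = -3, -1, 1`), and the vertex `σ = 2 j + i` has exactly the words with
`b = i`, `d + e = j`. -/
structure Xcl (V : Type) [AddCommGroup V] [Module ℚ V] : Prop where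
  c00 : ∀ f : ↥(Wg V 0 0) →ₗ[T] X, ∃ ψ : V →ₗ[ℚ] Vm 0, ∀ x, f x = th 1 ψ x.1
  c10 : ∀ f : ↥(Wg V 1 0) →ₗ[T] X, ∃ ψ : V →ₗ[ℚ] Vm 0, ∀ x, f x = th mB ψ x.1
  c02 : ∀ f : ↥(Wg V 0 2) →ₗ[T] X, ∃ ψ ψ' : V →ₗ[ℚ] Vm 0, ∀ x, f x = th mF ψ x.1 + th mX ψ' x.1
  c12 : ∀ f : ↥(Wg V 1 2) →ₗ[T] X, ∃ ψ ψ' : V →ₗ[ℚ] Vm 0,
    ∀ x, f x = th (mF * mB) ψ x.1 + th (mX * mB) ψ' x.1
  c04 : ∀ f : ↥(Wg V 0 4) →ₗ[T] X, ∃ ψ : V →ₗ[ℚ] Vm 0, ∀ x, f x = th (mX * mF) ψ x.1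
  c14 : ∀ f : ↥(Wg V 1 4) →ₗ[T] X, ∃ ψ : V →ₗ[ℚ] Vm 0, ∀ x, f x = th (mX * mF * mB) ψ x.1
  cy : ∀ (i : ZMod 2) (g : ℤ), g = -3 ∨ g = -1 ∨ g = 1 → ∀ f : ↥(Wg V i g) →ₗ[T] X, f = 0
  u00 : ∀ ψ : V →ₗ[ℚ] Vm 0, (∀ x ∈ Wg V 0 0, th 1 ψ x = 0) → ψ = 0
  u10 : ∀ ψ : V →ₗ[ℚ] Vm 0, (∀ x ∈ Wg V 1 0, th mB ψ x = 0) → ψ = 0
  u02 : ∀ ψ ψ' : V →ₗ[ℚ] Vm 0, (∀ x ∈ Wg V 0 2, th mF ψ x + th mX ψ' x = 0) → ψ = 0 ∧ ψ' = 0
  u12 : ∀ ψ ψ' : V →ₗ[ℚ] Vm 0,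
    (∀ x ∈ Wg V 1 2, th (mF * mB) ψ x + th (mX * mB) ψ' x = 0) → ψ = 0 ∧ ψ' = 0
  u04 : ∀ ψ : V →ₗ[ℚ] Vm 0, (∀ x ∈ Wg V 0 4, th (mX * mF) ψ x = 0) → ψ = 0
  u14 : ∀ ψ : V →ₗ[ℚ] Vm 0, (∀ x ∈ Wg V 1 4, th (mX * mF * mB) ψ x = 0) → ψ = 0

def S_XCL : Prop := ∀ (V : Type) [AddCommGroup V] [Module ℚ V], Xcl V

/-! ## THR: composition of the maps `th` with the operators (from S_XRL and the matrix relations)

E.g. `th mB ψ (z x) = xi (oM mB (oL ψ (mZ x - f mF x - h mX x)))`, `mB mZ = - mZ mB + 2 mX mB`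
(`rel_ZB`), so it is `th (mF * mB) (ψ f) x + th (mX * mB) (2 ψ + ψ h) x` (as `mB mF = - mF mB`,
`mB mX = - mX mB`).  All `Y` compositions vanish because `mY1, mY2` commute with `mB, mF, mX`. -/
structure Thr {V : Type} [AddCommGroup V] [Module ℚ V] (S : SL V) (ψ : V →ₗ[ℚ] Vm 0) : Prop where
  a1 : ∀ x, th 1 ψ (oa S x) = -th mB (ψ ∘ₗ S.e) x
  aB : ∀ x, th mB ψ (oa S x) = 0
  aF : ∀ x, th mF ψ (oa S x) = -th (mF * mB) (ψ ∘ₗ S.e) x
  aX : ∀ x, th mX ψ (oa S x) = -th (mF * mB) ψ x - th (mX * mB) (ψ ∘ₗ S.e) x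
  aBF : ∀ x, th (mF * mB) ψ (oa S x) = 0
  aBX : ∀ x, th (mX * mB) ψ (oa S x) = 0
  aFX : ∀ x, th (mX * mF) ψ (oa S x) = -th (mX * mF * mB) (ψ ∘ₗ S.e) x
  aBFX : ∀ x, th (mX * mF * mB) ψ (oa S x) = 0
  z1 : ∀ x, th 1 ψ (oz S x) = -th mF (ψ ∘ₗ S.f) x - th mX (ψ ∘ₗ S.h) x
  zB : ∀ x, th mB ψ (oz S x) =
    th (mF * mB) (ψ ∘ₗ S.f) x + th (mX * mB) ((2 : ℚ) • ψ + ψ ∘ₗ S.h) x
  zF : ∀ x, th mF ψ (oz S x) = th (mX * mF) (-((2 : ℚ) • ψ) + ψ ∘ₗ S.h) x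
  zX : ∀ x, th mX ψ (oz S x) = -th (mX * mF) (ψ ∘ₗ S.f) x
  zBF : ∀ x, th (mF * mB) ψ (oz S x) = -th (mX * mF * mB) (ψ ∘ₗ S.h) x
  zBX : ∀ x, th (mX * mB) ψ (oz S x) = th (mX * mF * mB) (ψ ∘ₗ S.f) x
  zFX : ∀ x, th (mX * mF) ψ (oz S x) = 0
  zBFX : ∀ x, th (mX * mF * mB) ψ (oz S x) = 0
  k1 : ∀ x, th 1 ψ (ok x) = th (mX * mF * mB) ψ x
  kB : ∀ x, th mB ψ (ok x) = 0
  kF : ∀ x, th mF ψ (ok x) = 0
  kX : ∀ x, th mX ψ (ok x) = 0
  lin : ∀ (s : Matrix I I ℚ) (ψ' : V →ₗ[ℚ] Vm 0) (c : ℚ) x,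
    th s (ψ + c • ψ') x = th s ψ x + c • th s ψ' x
  addx : ∀ (s : Matrix I I ℚ) (x x' : W V), th s ψ (x + x') = th s ψ x + th s ψ x'
  smulx : ∀ (s : Matrix I I ℚ) (c : ℚ) (x : W V), th s ψ (c • x) = c • th s ψ x
  /-- `th s ψ` is `T`-linear for a product `s` of right multiplications -/
  tlin : ∀ s : Matrix I I ℚ, s ∈ ({1, mB, mF, mX, mF * mB, mX * mB, mX * mF, mX * mF * mB} :
    Set (Matrix I I ℚ)) → ∀ (t : T) (x : W V), th s ψ (t • x) = t • th s ψ x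

def S_THR : Prop :=
  (∀ (V : Type) [AddCommGroup V] [Module ℚ V] (S : SL V) (ψ : V →ₗ[ℚ] Vm 0), Thr S ψ) ∧
  (∀ (V V' : Type) [AddCommGroup V] [Module ℚ V] [AddCommGroup V'] [Module ℚ V']
    (P Q : V' →ₗ[ℚ] V) (ψ : V →ₗ[ℚ] Vm 0) (s : Matrix I I ℚ),
    s ∈ ({1, mB, mF, mX, mF * mB, mX * mB, mX * mF, mX * mF * mB} : Set (Matrix I I ℚ)) →
    ∀ x : W V', th s ψ (oY P Q x) = 0)

/-! ## HOM: the complexes `Hom_T (Fm m, X)` (from S_XCL, S_THR, S_SL2, S_FEX.map)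

A `T`-linear map on `Fm m n` is a pair of maps on `Cg (Vm m) 0 n` and `Cg (Vm (m+1)) (-3) (n-1)`; the
second one is 0 by `cy`.  The first is a triple of maps on `Wg (Vm m) n 0`, `Wg (Vm m) (n+1) 2`
(for `n ≥ 1`), `Wg (Vm m) n 4` (for `n ≥ 2`): for `n` even it is given by functionals
`(x0; bf, bx; x2)` (`th 1 x0`, `th (mF mB) bf + th (mX mB) bx`, `th (mX mF) x2`), for `n` odd by
`(x; yf, yx; w)` (`th mB x`, `th mF yf + th mX yx`, `th (mX mF mB) w`).  By S_THR the differential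
(composition with `dC n : C (n+1) → C n`) is
  `n` even: `(x0; bf, bx; x2) ↦ (- x0 e; - x0 f, - x0 h; n x0 - bf h + bx f - x2 e)`,
  `n` odd: `(x; yf, yx; w) ↦ (0; x f - yf e - yx, 2 x + x h - yx e; - 2 yf + yf h - yx f)`
(without the entries which do not exist in low degrees: in degree 0 only `x0`, in degree 1 only
`x; yf, yx`).
Exactness in degree `n + 1` even: `x0 e = x0 f = x0 h = 0` and `(n+1) x0 - bf h + bx f - x2 e = 0`;
`x0 = 0` by H0 for `m ≥ 1`, and for `m = 0` because `e = f = h = 0` and `n + 1 ≠ 0`; then H2.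
Degree `n + 1` odd: H1 gives `x0`; for `n = 0` done; for `n ≥ 2` one still needs
`w = n x0 - bf h + bx f - x2 e`: H3 for `m ≥ 1`; for `m = 0`: `x = yf = yx = 0`, take `x0 = w / n`.
`zero`: a cocycle of degree 0 is an `x0` with `x0 e = x0 f = x0 h = 0`, so 0 for `m ≥ 1`. -/
structure HomX : Prop where
  ex : ∀ m n (f : ↥(Fm m (n + 1)) →ₗ[T] X),
    (∀ y, y ∈ Fm m (n + 2) → ∀ hd : dm m (n + 1) y ∈ Fm m (n + 1),
      f ⟨dm m (n + 1) y, hd⟩ = 0) →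
    ∃ g : ↥(Fm m n) →ₗ[T] X, ∀ y (hy : y ∈ Fm m (n + 1)) (hd : dm m n y ∈ Fm m n),
      f ⟨y, hy⟩ = g ⟨dm m n y, hd⟩
  zero : ∀ m (f : ↥(Fm (m + 1) 0) →ₗ[T] X),
    (∀ y, y ∈ Fm (m + 1) 1 → ∀ hd : dm (m + 1) 0 y ∈ Fm (m + 1) 0,
      f ⟨dm (m + 1) 0 y, hd⟩ = 0) → f = 0

def S_HOM : Prop := HomX

/-! ## XNP: `X` is finitely generated and not projective (from S_LWS, S_TST, S_XKR)

Suppose `X` is projective: there is a `T`-linear `s : X → Wg (Vm 0) 0 0` with `xi ∘ s = id`.  Let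
`δ = sg 0 0 1` (vertex 0, word 0), `u = s (xi δ)`, `n = u - δ`, so `xi n = 0` and `n` has zero
coefficient at `(0, 0)` by XKR.  Let `t = E_(00) ⊗ LW 127`.  Then `t • n = 0` by `soc`, so
`t • u = t • δ = sg 0 127 1 ≠ 0`; but `t • u = s (xi (t • δ)) = s (xi (sg 0 127 1)) = s 0 = 0`
by XKR (the coefficients of `sg 0 127 1` at the words `< 32` vanish), contradiction. -/
def S_XNP : Prop := Module.Finite T X ∧ ¬ Module.Projective T X

/-! ## IND: the abstract induction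

Claim `A i`: for all `k`, `Ext^(j+1) (H k, X) = 0` for `j ≤ i`, where `H k = F k 0 / im`.
Let `Z n` be the kernel of `d k (n-1)` in `F k n` and `B n` the image of `d k n` in it.
`B n = Z n` for `n ≠ 0, 3`, `Z 3 / B 3 ≃ H (k + 2)`.  `0 → Z (n+1) → F (n+1) → B n → 0` exact.
(1) `Ext^(j+1) (B n, X) = 0` for all `j ≥ 0` and `n ≥ 3`: `Ext^1` = extension of maps from
`Z (n+1) = B (n+1)` to `F (n+1)`, which is the exactness of Hom in degree `n + 2`; higher by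
dimension shifting.
(2) `Ext^1 (B 2, X) = 0`: let `f : Z 3 → X`; `f ∘ d` on `F 4` is a cocycle, `= g ∘ d`,
`g : F 3 → X`, so `f - g` kills `B 3`, so it is a map `H (k+2) → X`, i.e. a map `F (k+2) 0 → X`
killing the image, 0 by `zero` (for all `k + 1`).
(3) `0 → B 3 → Z 3 → H (k+2) → 0`, so `Ext^(j+1) (Z 3, X) = 0` if `Ext^(j+1) (H (k+2), X) = 0`.
(4) `Ext^(j+2) (B 2, X) = Ext^(j+1) (Z 3, X)`, `Ext^(j+1) (B 1, X)`: `Ext^1` by the exactness of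
Hom in degree 3, higher `= Ext^j (B 2, X)`; the same for `B 0` and `H k`.  So
`Ext^(j+5) (H k, X) = Ext^(j+1) (Z 3, X)`, induction.
Existing tools (starting files): W881/GamExt.lean (`Run7`-independent, `namespace W881.GS`): `EV`,
`ev_mid`, `ev_right`, `ev_left`, `ev_zero_iff`, `ev_proj`, `ev_of_equiv`. -/
def S_IND : Prop := ∀ (R : Type) [Ring R] (Z : ℕ → Type) [∀ k, AddCommGroup (Z k)]
  [∀ k, Module R (Z k)] (F : ∀ k, ℕ → Submodule R (Z k)) (d : ∀ k, ℕ → (Z k →ₗ[R] Z k))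
  (tau : ∀ k, Z (k + 2) →ₗ[R] Z k) (X : Type) [AddCommGroup X] [Module R X],
  (∀ k n, Module.Projective R ↥(F k n)) →
  (∀ k n x, x ∈ F k (n + 1) → d k n x ∈ F k n) →
  (∀ k n x, x ∈ F k (n + 2) → d k n (d k (n + 1) x) = 0) →
  (∀ k n x, n ≠ 2 → x ∈ F k (n + 1) → d k n x = 0 → ∃ y ∈ F k (n + 2), d k (n + 1) y = x) →
  (∀ k x, x ∈ F (k + 2) 0 → tau k x ∈ F k 3 ∧ d k 2 (tau k x) = 0) →
  (∀ k x, x ∈ F k 3 → d k 2 x = 0 → ∃ x' ∈ F (k + 2) 0, ∃ y ∈ F k 4, x = tau k x' + d k 3 y) →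
  (∀ k x, x ∈ F (k + 2) 0 →
    ((∃ y ∈ F k 4, d k 3 y = tau k x) ↔ ∃ y ∈ F (k + 2) 1, d (k + 2) 0 y = x)) →
  (∀ k n (f : ↥(F k (n + 1)) →ₗ[R] X),
    (∀ y, y ∈ F k (n + 2) → ∀ hd : d k (n + 1) y ∈ F k (n + 1),
      f ⟨d k (n + 1) y, hd⟩ = 0) →
    ∃ g : ↥(F k n) →ₗ[R] X, ∀ y (hy : y ∈ F k (n + 1)) (hd : d k n y ∈ F k n),
      f ⟨y, hy⟩ = g ⟨d k n y, hd⟩) →
  (∀ k (f : ↥(F (k + 1) 0) →ₗ[R] X),
    (∀ y, y ∈ F (k + 1) 1 → ∀ hd : d (k + 1) 0 y ∈ F (k + 1) 0,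
      f ⟨d (k + 1) 0 y, hd⟩ = 0) → f = 0) →
  ∀ k i, Subsingleton (Abelian.Ext.{0}
    (ModuleCat.of R (↥(F k 0) ⧸ (((F k 1).map (d k 0)).comap (F k 0).subtype)))
    (ModuleCat.of R X) (i + 1))

end Run7.h433.Nak
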