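/-
Piece CEX: homology of the complexes `C`.
-/
import Pool.Agent.Run7.h433.Nak.Iface

set_option autoImplicit false

namespace Run7.h433.Nak

variable {V : Type} [AddCommGroup V] [Module ℚ V]

section basic

variable {S : SL V} (H : Ops S)

include H

/-- `a w = 0` gives `w = a D w` -/
theorem eq_of_a {w : W V} (h : oa S w = 0) : w = oa S (oda w) := by
  have h1 := H.Da w
  rw [h, map_zero] at h1
  exact (sub_eq_zero.1 h1.symm)

theorem dC_dd (n : ℕ) (x : W3 V) : dC S n (dC S (n + 1) x) = 0 := by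
  obtain ⟨x0, x1, x2⟩ := x
  rw [dC_apply, dC_apply]
  have hn : ¬ (n + 1 = 0) := by omega
  simp only [if_neg hn]
  refine Prod.ext ?_ (Prod.ext ?_ ?_)
  · show oa S (oa S x0 + oz S x1 + ((n + 1 : ℕ) : ℚ) • ok x2) +
      oz S (oa S x1 + oz S x2) + (n : ℚ) • ok (if n + 1 < 2 then 0 else oa S x2) = 0
    by_cases h : n = 0
    · subst h
      simp only [map_add, map_smul, H.aa, H.az, H.zz]
      push_cast
      simp only [zero_add, one_smul, map_zero, smul_zero, add_zero, if_pos (show 1 < 2 by omega)]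
      abel
    · rw [if_neg (by omega)]
      simp only [map_add, map_smul, H.aa, H.az, H.zz, H.ka]
      push_cast
      module
  · show (if n = 0 then 0 else oa S (oa S x1 + oz S x2) +
      oz S (if n + 1 < 2 then 0 else oa S x2)) = 0
    by_cases h : n = 0
    · rw [if_pos h]
    · rw [if_neg h, if_neg (by omega)]
      simp only [map_add, H.aa, H.az]
      abel
  · show (if n < 2 then 0 else oa S (if n + 1 < 2 then 0 else oa S x2)) = 0
    by_cases h : n < 2
    · rw [if_pos h]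
    · rw [if_neg h, if_neg (by omega), H.aa]

/-- the core of the exactness in the degrees `n + 1 ≥ 2` -/
theorem core_ge (n : ℕ) (hn : 1 ≤ n) (x0 x1 x2 : W V)
    (h0 : oa S x0 + oz S x1 + (n : ℚ) • ok x2 = 0) (h1 : oa S x1 + oz S x2 = 0)
    (h2 : oa S x2 = 0) :
    dC S (n + 1) (oda (x0 - oz S (oda (x1 - oz S (oda x2))) - ((n : ℚ) + 1) • ok (oda x2)),
      oda (x1 - oz S (oda x2)), oda x2) = (x0, x1, x2) := by
  have e2 : oa S (oda x2) = x2 := (eq_of_a H h2).symm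
  have e1 : oa S (oda (x1 - oz S (oda x2))) = x1 - oz S (oda x2) := by
    refine (eq_of_a H ?_).symm
    rw [map_sub, H.az, e2, sub_neg_eq_add, h1]
  have e0 : oa S (oda (x0 - oz S (oda (x1 - oz S (oda x2))) - ((n : ℚ) + 1) • ok (oda x2))) =
      x0 - oz S (oda (x1 - oz S (oda x2))) - ((n : ℚ) + 1) • ok (oda x2) := by
    refine (eq_of_a H ?_).symm
    have h3 : oa S (ok (oda x2)) = - ok x2 := by
      have := H.ka (oda x2)
      rw [e2] at this
      rw [this, neg_neg]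
    rw [map_sub, map_sub, map_smul, H.az, e1, h3, map_sub, H.zz, h3]
    have : oa S x0 = - oz S x1 - (n : ℚ) • ok x2 := by
      rw [← sub_eq_zero, ← h0]; abel
    rw [this]
    module
  rw [dC_apply]
  refine Prod.ext ?_ (Prod.ext ?_ ?_)
  · show oa S _ + oz S _ + ((n + 1 : ℕ) : ℚ) • ok (oda x2) = x0
    rw [e0]
    push_cast
    abel
  · show (if n + 1 = 0 then 0 else oa S _ + oz S (oda x2)) = x1
    rw [if_neg (by omega), e1]
    abel
  · show (if n + 1 < 2 then 0 else oa S (oda x2)) = x2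
    rw [if_neg (by omega), e2]

/-- the exactness in degree 1 -/
theorem core_one (x0 x1 : W V) (h0 : oa S x0 + oz S x1 = 0) :
    dC S 1 (oda (x0 - ok (odz x1) - oz S (odz x0)), odz x0, odz x1) = (x0, x1, 0) := by
  have e1 : oa S (odz x0) + oz S (odz x1) = x1 := by
    have h := congrArg odz h0
    rw [map_add, H.Ea, H.Ez, map_zero] at h
    have h' : x1 - (oa S (odz x0) + oz S (odz x1)) = 0 := by rw [← h]; abel
    exact (sub_eq_zero.1 h').symm
  have e0 : oa S (oda (x0 - ok (odz x1) - oz S (odz x0))) =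
      x0 - ok (odz x1) - oz S (odz x0) := by
    refine (eq_of_a H ?_).symm
    have h3 : oz S (oa S (odz x0)) + oz S (oz S (odz x1)) = oz S x1 := by
      rw [← map_add, e1]
    rw [H.zz] at h3
    rw [map_sub, map_sub, H.az]
    have h4 : oa S x0 = - oz S x1 := eq_neg_of_add_eq_zero_left h0
    rw [h4, ← h3]
    abel
  rw [dC_apply]
  refine Prod.ext ?_ (Prod.ext ?_ ?_)
  · show oa S _ + oz S _ + ((1 : ℕ) : ℚ) • ok (odz x1) = x0
    rw [e0]
    push_cast
    rw [one_smul]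
    abel
  · show (if 1 = 0 then (0 : W V) else oa S (odz x0) + oz S (odz x1)) = x1
    rw [if_neg (by omega), e1]
  · rfl

theorem D_qS (x : W V) : oda (qS S x) = 0 := by
  rw [qS, map_sub, H.Da, H.DD, map_zero]
  abel

theorem E_qS (x : W V) : odz (qS S x) = 0 := by
  rw [qS]
  have h1 : odz (x - oz S (odz x)) = 0 := by
    rw [map_sub, H.Ez, H.EE, map_zero]
    abel
  rw [map_sub, h1, H.Ea, H.ED, h1, map_zero, neg_zero, map_zero, neg_zero, sub_zero]

theorem D_rS (x : W V) : oda (rS S x) = 0 := by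
  rw [rS]
  have h1 : oda (x - oa S (oda x)) = 0 := by
    rw [map_sub, H.Da, H.DD, map_zero]
    abel
  have h2 := H.ED (x - oa S (oda x))
  rw [h1, map_zero] at h2
  exact neg_eq_zero.1 h2.symm

theorem E_rS (x : W V) : odz (rS S x) = 0 := H.EE _

omit H in
theorem qS_of_kr {u : W V} (h1 : oda u = 0) (h2 : odz u = 0) : qS S u = u := by
  rw [qS, h2, map_zero, sub_zero, h1, map_zero, sub_zero]

/-- `q` kills the image -/
theorem qS_im (y0 y1 : W V) : qS S (oa S y0 + oz S y1) = 0 := by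
  have h1 : (oa S y0 + oz S y1) - oz S (odz (oa S y0 + oz S y1)) =
      oa S (y0 - oz S (odz y0) - ok (odz y1)) := by
    have h2 : oz S (oz S (odz y1)) = - oa S (ok (odz y1)) := H.zz _
    have h3 : oz S (oa S (odz y0)) = - oa S (oz S (odz y0)) := by rw [H.az, neg_neg]
    rw [map_add odz, H.Ea, H.Ez, map_add, map_neg, map_sub, h2, h3, map_sub, map_sub]
    abel
  rw [qS, h1, H.Da, map_sub (oa S) _ (oa S _), H.aa, sub_zero, sub_self]

theorem rz' (x : W V) : rS S (oz S x) = qS S x := by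
  have e1 : odz (oa S (ok (odz x))) = 0 := by
    rw [H.Ea, H.Ek, H.EE, map_zero, neg_zero, map_zero, neg_zero]
  have e2 : odz (oa S (oz S (oda x))) = -(oa S (oda x)) - oa S (oz S (oda (odz x))) := by
    rw [H.Ea, H.Ez, H.ED, map_sub, map_neg, map_neg]
    abel
  have e3 : oz S (oda x) = oz S (oda x) := rfl
  have e4 : oa S (oda (oz S (odz x))) = - oa S (oz S (oda (odz x))) := by
    rw [H.Dz, H.EE, map_zero, sub_zero, map_neg]
  have l : rS S (oz S x) = x - oz S (odz x) + (-(oa S (oda x)) - oa S (oz S (oda (odz x)))) := by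
    rw [rS, H.Dz, map_sub, map_sub (oa S), map_neg, map_sub, map_neg, H.Ez, e1, e2]
    abel
  rw [l, qS, map_sub, map_sub, e4]
  abel

theorem cyc' (u : W V) : dC S 1 (0, ok u, oz S u) = 0 := by
  rw [dC_apply]
  refine Prod.ext ?_ (Prod.ext ?_ ?_)
  · show oa S 0 + oz S (ok u) + ((1 : ℕ) : ℚ) • ok (oz S u) = 0
    rw [map_zero, H.kz]
    push_cast
    rw [one_smul]
    abel
  · show (if 1 = 0 then 0 else oa S (ok u) + oz S (oz S u)) = 0
    rw [if_neg (by omega), H.zz]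
    abel
  · rfl

theorem r_cyc' {u : W V} (h1 : oda u = 0) (h2 : odz u = 0) : rS S (oz S u) = u := by
  rw [rz' H, qS_of_kr h1 h2]

/-- `r x2 = 0` for a cycle of degree 2 gives `a x2 = 0` -/
theorem a_of_r (x1 x2 : W V) (h1 : oa S x1 + oz S x2 = 0) (hr : rS S x2 = 0) :
    oa S x2 = 0 := by
  have e : oa S (x1 - oz S (oda x2)) + oz S (x2 - oa S (oda x2)) = 0 := by
    rw [map_sub, map_sub, H.az, ← h1]
    abel
  have e2 := congrArg odz e
  rw [map_add, H.Ea, H.Ez, map_zero] at e2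
  have hr' : odz (x2 - oa S (oda x2)) = 0 := hr
  rw [hr', map_zero, sub_zero] at e2
  have e3 : x2 = oa S (oda x2) + oa S (odz (x1 - oz S (oda x2))) := by
    have : x2 - (oa S (oda x2) + oa S (odz (x1 - oz S (oda x2)))) = 0 := by
      rw [← e2]; abel
    exact sub_eq_zero.1 this
  rw [e3, map_add, H.aa, H.aa, add_zero]

end basic

/-- parity in `ZMod 2` -/
theorem z2 (n : ℕ) : ((n + 2 : ℕ) : ZMod 2) = (n : ZMod 2) := by
  have : (2 : ZMod 2) = 0 := rfl
  push_cast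
  rw [this, add_zero]

theorem wg_cast {i i' : ZMod 2} {g g' : ℤ} {x : W V} (h : x ∈ Wg V i g) (hi : i = i')
    (hg : g = g') : x ∈ Wg V i' g' := by
  subst hi; subst hg; exact h

theorem z2' (a : ZMod 2) : a + 1 + 1 = a := by
  have : (1 : ZMod 2) + 1 = 0 := rfl
  rw [add_assoc, this, add_zero]

section grad

variable {S : SL V} (G : Grd V) {γ : ℤ}

include G

theorem mem_core (n : ℕ) (hn : 1 ≤ n) (x0 x1 x2 : W V) (c : ℚ)
    (m0 : x0 ∈ Wg V (n + 1) γ) (m1 : x1 ∈ Wg V (n + 1 + 1) (γ + 2))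
    (m2 : x2 ∈ Wg V (n + 1) (γ + 4)) :
    ((oda (x0 - oz S (oda (x1 - oz S (oda x2))) - c • ok (oda x2)),
      oda (x1 - oz S (oda x2)), oda x2) : W3 V) ∈ Cg V γ (n + 2) := by
  have k2 : oda x2 ∈ Wg V (n + 1 + 1) (γ + 4) := G.D _ _ _ m2
  have k1 : x1 - oz S (oda x2) ∈ Wg V (n + 1 + 1) (γ + 2) :=
    sub_mem m1 (wg_cast (G.z S _ _ _ k2) rfl (by ring))
  have k1' : oda (x1 - oz S (oda x2)) ∈ Wg V (n + 1 + 1 + 1) (γ + 2) := G.D _ _ _ k1
  have k0 : x0 - oz S (oda (x1 - oz S (oda x2))) - c • ok (oda x2) ∈ Wg V (n + 1) γ := by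
    refine sub_mem (sub_mem m0 (wg_cast (G.z S _ _ _ k1') (z2' _) (by ring))) ?_
    have := wg_cast (G.k _ _ _ k2) (z2' _) (show γ + 4 - 4 = γ by ring)
    have h2 : c • ok (oda x2) = (algebraMap ℚ T c) • ok (oda x2) := by
      rw [algebraMap_smul]
    rw [h2]
    exact Submodule.smul_mem _ _ this
  have k0' := G.D _ _ _ k0
  refine ⟨wg_cast k0' ?_ rfl, ⟨wg_cast k1' ?_ rfl, fun h => by omega⟩,
    ⟨wg_cast k2 ?_ rfl, fun h => by omega⟩⟩
  · push_cast
    ring
  · push_cast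
    ring
  · push_cast
    ring

theorem mem_one (x0 x1 : W V) (m0 : x0 ∈ Wg V 1 γ) (m1 : x1 ∈ Wg V (1 + 1) (γ + 2)) :
    ((oda (x0 - ok (odz x1) - oz S (odz x0)), odz x0, odz x1) : W3 V) ∈ Cg V γ 2 := by
  have k2 : odz x1 ∈ Wg V (1 + 1) (γ + 4) := wg_cast (G.E _ _ _ m1) rfl (by ring)
  have k1 : odz x0 ∈ Wg V 1 (γ + 2) := G.E _ _ _ m0
  have k0 : x0 - ok (odz x1) - oz S (odz x0) ∈ Wg V 1 γ := by
    refine sub_mem (sub_mem m0 (wg_cast (G.k _ _ _ k2) (z2' _) (by ring))) ?_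
    exact wg_cast (G.z S _ _ _ k1) rfl (by ring)
  refine ⟨wg_cast (G.D _ _ _ k0) rfl rfl, ⟨wg_cast k1 rfl rfl, fun h => by omega⟩,
    ⟨wg_cast k2 rfl rfl, fun h => by omega⟩⟩

theorem dC_mem (n : ℕ) (x : W3 V) (h : x ∈ Cg V γ (n + 1)) : dC S n x ∈ Cg V γ n := by
  obtain ⟨m0, ⟨m1, -⟩, ⟨m2, e2⟩⟩ := h
  rw [dC_apply]
  have q0 : oa S x.1 ∈ Wg V n γ := wg_cast (G.a S _ _ _ m0) (by push_cast; exact z2' _) rfl
  have q1 : oz S x.2.1 ∈ Wg V n γ :=
    wg_cast (G.z S _ _ _ m1) (by push_cast; exact z2' _) (by ring)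
  have q2 : ok x.2.2 ∈ Wg V n γ :=
    wg_cast (G.k _ _ _ m2) (by push_cast; exact z2' _) (by ring)
  refine ⟨?_, ⟨?_, ?_⟩, ⟨?_, ?_⟩⟩
  · refine add_mem (add_mem q0 q1) ?_
    have h2 : (n : ℚ) • ok x.2.2 = (algebraMap ℚ T (n : ℚ)) • ok x.2.2 := by
      rw [algebraMap_smul]
    rw [h2]
    exact Submodule.smul_mem _ _ q2
  · show (if n = 0 then (0 : W V) else _) ∈ _
    split_ifs
    · exact zero_mem _
    · exact add_mem (wg_cast (G.a S _ _ _ m1) (by push_cast; exact z2' _) rfl)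
        (wg_cast (G.z S _ _ _ m2) (by push_cast; rfl) (by ring))
  · intro h
    show (if n = 0 then (0 : W V) else _) = 0
    rw [if_pos h]
  · show (if n < 2 then (0 : W V) else _) ∈ _
    split_ifs
    · exact zero_mem _
    · exact wg_cast (G.a S _ _ _ m2) (by push_cast; exact z2' _) rfl
  · intro h
    show (if n < 2 then (0 : W V) else _) = 0
    rw [if_pos h]

end grad

theorem cex (hO : S_OPS) (hG : S_GRD) : S_CEX := by
  intro V _ _ S γ
  have H := hO V S
  have G := hG V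
  have qmem : ∀ x ∈ Wg V 0 γ, ((oda (x - oz S (odz x)), odz x, 0) : W3 V) ∈ Cg V γ 1 := by
    intro x hx
    have k1 : odz x ∈ Wg V 0 (γ + 2) := G.E _ _ _ hx
    have k0 : x - oz S (odz x) ∈ Wg V 0 γ :=
      sub_mem hx (wg_cast (G.z S _ _ _ k1) rfl (by ring))
    exact ⟨wg_cast (G.D _ _ _ k0) rfl rfl, ⟨wg_cast k1 rfl rfl, fun h => by omega⟩,
      ⟨zero_mem _, fun _ => rfl⟩⟩
  have qeq : ∀ x : W V, dC S 0 (oda (x - oz S (odz x)), odz x, 0) = (x - qS S x, 0, 0) := by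
    intro x
    rw [dC_apply]
    refine Prod.ext ?_ (Prod.ext ?_ ?_)
    · show oa S _ + oz S (odz x) + ((0 : ℕ) : ℚ) • ok 0 = x - qS S x
      rw [qS, map_zero, smul_zero]
      abel
    · rfl
    · rfl
  refine ⟨dC_mem G, dC_dd H, ?_, ?_, ?_, ?_, ?_, ?_, ?_, ?_, cyc' H, rz' H, ?_⟩
  · intro n hn x hx h
    obtain ⟨x0, x1, x2⟩ := x
    obtain ⟨m0, ⟨m1, -⟩, ⟨m2, e2⟩⟩ := hx
    rw [dC_apply] at h
    have a0 := congrArg Prod.fst h
    have a1 := congrArg (fun p => p.2.1) h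
    have a2 := congrArg (fun p => p.2.2) h
    rcases Nat.eq_zero_or_pos n with h0 | h0
    · subst h0
      have e2' : x2 = 0 := e2 (by omega)
      subst e2'
      have a0' : oa S x0 + oz S x1 + ((0 : ℕ) : ℚ) • ok 0 = 0 := a0
      rw [map_zero, smul_zero, add_zero] at a0'
      exact ⟨_, mem_one G x0 x1 (wg_cast m0 (by push_cast; rfl) rfl)
        (wg_cast m1 (by push_cast; rfl) rfl), core_one H x0 x1 a0'⟩
    · have a1' : (if n = 0 then 0 else oa S x1 + oz S x2) = 0 := a1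
      have a2' : (if n < 2 then 0 else oa S x2) = 0 := a2
      rw [if_neg (by omega)] at a1' a2'
      exact ⟨_, mem_core G n h0 x0 x1 x2 _ (wg_cast m0 (by push_cast; rfl) rfl)
        (wg_cast m1 (by push_cast; rfl) rfl) (wg_cast m2 (by push_cast; rfl) rfl),
        core_ge H n h0 x0 x1 x2 a0 a1' a2'⟩
  · intro x hx
    have k := qmem x hx
    have k2 := dC_mem (S := S) G 0 _ k
    rw [qeq] at k2
    have k3 : x - qS S x ∈ Wg V 0 γ := k2.1
    refine ⟨?_, D_qS H x, E_qS H x⟩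
    have := sub_mem hx k3
    rwa [sub_sub_cancel] at this
  · rintro u ⟨-, h1, h2⟩
    exact qS_of_kr h1 h2
  · intro x hx
    constructor
    · intro h
      exact ⟨_, qmem x hx, by rw [qeq, h, sub_zero]⟩
    · rintro ⟨y, ⟨_, _, ⟨_, e2⟩⟩, h⟩
      rw [dC_apply] at h
      have h0 : oa S y.1 + oz S y.2.1 + ((0 : ℕ) : ℚ) • ok y.2.2 = x := congrArg Prod.fst h
      rw [e2 (by omega), map_zero, smul_zero, add_zero] at h0
      rw [← h0, qS_im H]
  · intro x hx
    exact ⟨_, qmem x hx, qeq x⟩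
  · intro x hx
    refine ⟨?_, D_rS H x, E_rS H x⟩
    have k1 : oa S (oda x) ∈ Wg V 0 (γ + 4) :=
      wg_cast (G.a S _ _ _ (G.D _ _ _ hx)) (z2' _) rfl
    exact wg_cast (G.E _ _ _ (sub_mem hx k1)) rfl (by ring)
  · intro x hx h
    obtain ⟨x0, x1, x2⟩ := x
    obtain ⟨m0, ⟨m1, -⟩, ⟨m2, -⟩⟩ := hx
    constructor
    · intro hr
      rw [dC_apply] at h
      have a0 := congrArg Prod.fst h
      have a1 := congrArg (fun p => p.2.1) h
      have a1' : (if 1 = 0 then 0 else oa S x1 + oz S x2) = 0 := a1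
      rw [if_neg (by omega)] at a1'
      exact ⟨_, mem_core G 1 (le_refl 1) x0 x1 x2 _ (wg_cast m0 (by push_cast; rfl) rfl)
        (wg_cast m1 (by push_cast; rfl) rfl) (wg_cast m2 (by push_cast; rfl) rfl),
        core_ge H 1 (le_refl 1) x0 x1 x2 a0 a1' (a_of_r H x1 x2 a1' hr)⟩
    · rintro ⟨y, -, hy⟩
      rw [dC_apply] at hy
      have e : (if 2 < 2 then 0 else oa S y.2.2) = x2 := congrArg (fun p => p.2.2) hy
      rw [if_neg (by omega)] at e
      show rS S x2 = 0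
      rw [← e, rS, H.Da, map_sub (oa S), H.aa, sub_zero, sub_self, map_zero]
  · intro u hu
    refine ⟨zero_mem _, ⟨wg_cast (G.k _ _ _ hu) ?_ (by ring), fun h => by omega⟩,
      ⟨wg_cast (G.z S _ _ _ hu) ?_ (by ring), fun h => by omega⟩⟩
    · rfl
    · rfl
  · rintro u ⟨-, h1, h2⟩
    exact r_cyc' H h1 h2

end Run7.h433.Nak
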