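/-
Piece OPS: identities between the operators.
-/
import Pool.Agent.Run7.h433.Nak.Iface

set_option autoImplicit false

namespace Run7.h433.Nak

variable {V : Type} [AddCommGroup V] [Module ℚ V]

theorem oa_eq (S : SL V) (x : W V) : oa S x = oM mA x - oL S.e (oM mB x) := rfl

theorem oz_eq (S : SL V) (x : W V) :
    oz S x = oM mZ x - oL S.f (oM mF x) - oL S.h (oM mX x) := rfl

theorem ok_eq (x : W V) : ok x = oM mX (oM mF (oM mB x)) := by
  rw [ok, oM_mul, oM_mul]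

theorem oda_eq (x : W V) : oda x = oM dA x := rfl
theorem odz_eq (x : W V) : odz x = oM dZ x := rfl

/-- matrix identities applied to elements -/
theorem m_AA (x : W V) : oM mA (oM mA x) = 0 := by rw [← oM_mul, rel_AA, oM_zero]
theorem m_BB (x : W V) : oM mB (oM mB x) = 0 := by rw [← oM_mul, rel_BB, oM_zero]
theorem m_FF (x : W V) : oM mF (oM mF x) = 0 := by rw [← oM_mul, rel_FF, oM_zero]
theorem m_XX (x : W V) : oM mX (oM mX x) = 0 := by rw [← oM_mul, rel_XX, oM_zero]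
theorem m_ZZ (x : W V) : oM mZ (oM mZ x) = -oM mA (oM mX (oM mF (oM mB x))) := by
  rw [← oM_mul, rel_ZZ, oM_neg, oM_mul, oM_mul, oM_mul]
theorem m_BA (x : W V) : oM mB (oM mA x) = -oM mA (oM mB x) := by
  rw [← oM_mul, rel_BA, oM_neg, oM_mul]
theorem m_FA (x : W V) : oM mF (oM mA x) = -oM mA (oM mF x) := by
  rw [← oM_mul, rel_FA, oM_neg, oM_mul]
theorem m_XA (x : W V) : oM mX (oM mA x) = -oM mA (oM mX x) - oM mF (oM mB x) := by
  rw [← oM_mul, rel_XA, oM_sub, oM_neg, oM_mul, oM_mul]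
theorem m_ZA (x : W V) : oM mZ (oM mA x) = -oM mA (oM mZ x) := by
  rw [← oM_mul, rel_ZA, oM_neg, oM_mul]
theorem m_FB (x : W V) : oM mB (oM mF x) = -oM mF (oM mB x) := by
  rw [← oM_mul, rel_FB, oM_neg, oM_mul]
theorem m_XB (x : W V) : oM mB (oM mX x) = -oM mX (oM mB x) := by
  rw [← oM_mul, rel_XB, oM_neg, oM_mul]
theorem m_FX (x : W V) : oM mF (oM mX x) = -oM mX (oM mF x) := by
  rw [← oM_mul, rel_FX, oM_neg, oM_mul]
theorem m_ZB (x : W V) : oM mZ (oM mB x) = -oM mB (oM mZ x) + (2 : ℚ) • oM mX (oM mB x) := by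
  rw [← oM_mul, rel_ZB, oM_add, oM_neg, oM_mul, oM_smul, oM_mul]
theorem m_ZF (x : W V) : oM mZ (oM mF x) = -oM mF (oM mZ x) - (2 : ℚ) • oM mX (oM mF x) := by
  rw [← oM_mul, rel_ZF, oM_sub, oM_neg, oM_mul, oM_smul, oM_mul]
theorem m_ZX (x : W V) : oM mZ (oM mX x) = -oM mX (oM mZ x) := by
  rw [← oM_mul, rel_ZX, oM_neg, oM_mul]
theorem m_dAA (x : W V) : oM dA (oM mA x) = x - oM mA (oM dA x) := by
  rw [← oM_mul, rel_dAA, oM_sub, oM_one, oM_mul]
theorem m_dAB (x : W V) : oM dA (oM mB x) = -oM mB (oM dA x) := by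
  rw [← oM_mul, rel_dAB, oM_neg, oM_mul]
theorem m_dAF (x : W V) : oM dA (oM mF x) = -oM mF (oM dA x) := by
  rw [← oM_mul, rel_dAF, oM_neg, oM_mul]
theorem m_dAX (x : W V) : oM dA (oM mX x) = -oM mX (oM dA x) := by
  rw [← oM_mul, rel_dAX, oM_neg, oM_mul]
theorem m_dAZ (x : W V) : oM dA (oM mZ x) = -oM mZ (oM dA x) -
    oM mX (oM mF (oM mB (oM dZ x))) := by
  rw [← oM_mul, rel_dAZ, oM_sub, oM_neg, oM_mul, oM_mul, oM_mul, oM_mul]
theorem m_dAdA (x : W V) : oM dA (oM dA x) = 0 := by rw [← oM_mul, rel_dAdA, oM_zero]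
theorem m_dZA (x : W V) : oM dZ (oM mA x) = -oM mA (oM dZ x) := by
  rw [← oM_mul, rel_dZA, oM_neg, oM_mul]
theorem m_dZB (x : W V) : oM dZ (oM mB x) = -oM mB (oM dZ x) := by
  rw [← oM_mul, rel_dZB, oM_neg, oM_mul]
theorem m_dZF (x : W V) : oM dZ (oM mF x) = -oM mF (oM dZ x) := by
  rw [← oM_mul, rel_dZF, oM_neg, oM_mul]
theorem m_dZX (x : W V) : oM dZ (oM mX x) = -oM mX (oM dZ x) := by
  rw [← oM_mul, rel_dZX, oM_neg, oM_mul]
theorem m_dZZ (x : W V) : oM dZ (oM mZ x) = x - oM mZ (oM dZ x) := by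
  rw [← oM_mul, rel_dZZ, oM_sub, oM_one, oM_mul]
theorem m_dZdZ (x : W V) : oM dZ (oM dZ x) = 0 := by rw [← oM_mul, rel_dZdZ, oM_zero]
theorem m_dZdA (x : W V) : oM dZ (oM dA x) = -oM dA (oM dZ x) := by
  rw [← oM_mul, rel_dZdA, oM_neg, oM_mul]

theorem ef' (S : SL V) (x : W V) : oL S.e (oL S.f x) = oL S.f (oL S.e x) + oL S.h x := by
  funext τ r
  have := LinearMap.congr_fun S.ef (x τ r)
  have h2 : S.e (S.f (x τ r)) - S.f (S.e (x τ r)) = S.h (x τ r) := this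
  show S.e (S.f (x τ r)) = S.f (S.e (x τ r)) + S.h (x τ r)
  rw [← h2]; abel

theorem he' (S : SL V) (x : W V) :
    oL S.h (oL S.e x) = oL S.e (oL S.h x) + (2 : ℚ) • oL S.e x := by
  funext τ r
  have := LinearMap.congr_fun S.he (x τ r)
  have h2 : S.h (S.e (x τ r)) - S.e (S.h (x τ r)) = (2 : ℚ) • S.e (x τ r) := this
  show S.h (S.e (x τ r)) = S.e (S.h (x τ r)) + (2 : ℚ) • S.e (x τ r)
  rw [← h2]; abel

theorem hf' (S : SL V) (x : W V) :
    oL S.h (oL S.f x) = oL S.f (oL S.h x) - (2 : ℚ) • oL S.f x := by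
  funext τ r
  have := LinearMap.congr_fun S.hf (x τ r)
  have h2 : S.h (S.f (x τ r)) - S.f (S.h (x τ r)) = -((2 : ℚ) • S.f (x τ r)) := this
  show S.h (S.f (x τ r)) = S.f (S.h (x τ r)) - (2 : ℚ) • S.f (x τ r)
  rw [sub_eq_add_neg, ← h2]; abel

theorem ops : S_OPS := by
  intro V _ _ S
  refine ⟨?_, ?_, ?_, ?_, ?_, ?_, ?_, ?_, ?_, ?_, ?_, ?_, ?_, ?_, ?_⟩
  · intro x
    simp only [oa_eq, map_sub, oM_oL, m_AA, m_BA, m_BB, map_neg, map_zero]
    abel
  · intro x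
    simp only [oa_eq, oz_eq, map_sub, map_add, map_neg, map_smul, map_zero, oM_oL, m_ZA, m_FA,
      m_XA, m_ZB, m_FB, m_XB, ef', he']
    module
  · intro x
    simp only [oa_eq, oz_eq, ok_eq, map_sub, map_add, map_neg, map_smul, map_zero, oM_oL, m_ZZ,
      m_ZF, m_ZX, m_FF, m_XX, m_FX, m_XB, m_FB, m_BB, hf']
    module
  · intro x
    simp only [oa_eq, ok_eq, map_sub, map_add, map_neg, map_smul, map_zero, oM_oL, m_BA, m_FA,
      m_XA, m_BB, m_FB, m_XB, m_FF]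
    module
  · intro x
    simp only [oz_eq, ok_eq, map_sub, map_add, map_neg, map_smul, map_zero, oM_oL, m_ZX, m_ZF,
      m_ZB, m_FB, m_XB, m_FF, m_XX, m_FX, m_BB]
    module
  · intro x
    simp only [ok_eq, map_neg, map_zero, m_XB, m_FB, m_BB]
    simp
  · intro x
    simp only [oa_eq, oda_eq, map_sub, map_neg, oM_oL, m_dAA, m_dAB]
    abel
  · intro x
    simp only [oz_eq, ok_eq, oda_eq, odz_eq, map_sub, map_neg, oM_oL, m_dAZ, m_dAF, m_dAX]
    abel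
  · intro x
    simp only [ok_eq, oda_eq, map_neg, m_dAX, m_dAF, m_dAB]
    simp
  · intro x
    simp only [oa_eq, odz_eq, map_sub, map_neg, oM_oL, m_dZA, m_dZB]
    abel
  · intro x
    simp only [oz_eq, odz_eq, map_sub, map_neg, oM_oL, m_dZZ, m_dZF, m_dZX]
    abel
  · intro x
    simp only [ok_eq, odz_eq, map_neg, m_dZX, m_dZF, m_dZB]
    simp
  · intro x
    simp only [oda_eq, m_dAdA]
  · intro x
    simp only [odz_eq, m_dZdZ]
  · intro x
    simp only [oda_eq, odz_eq, m_dZdA]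

end Run7.h433.Nak
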