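/-
Assembly of the counterexample, from the pieces.
-/
import Pool.Agent.Run7.h433.Nak.CEX
import Pool.Agent.Run7.h433.Nak.OPS
import Pool.Agent.Run7.h102.Nak.WC

set_option autoImplicit false

open CategoryTheory
open Pool.Agent.Results.MP_5dc868_al.NakayamaEquivalent

namespace Run7.h433.Nak

/-- `Ext^(i+1) (Yq k, X) = 0` -/
theorem ext_zero (hI : S_IND) (hP : S_PRJ) (hF : S_FEX) (hH : S_HOM) (k i : ℕ) :
    Subsingleton (Abelian.Ext.{0} (ModuleCat.of T (Yq k)) (ModuleCat.of T X) (i + 1)) :=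
  hI T Zm Fm dm tau X hP hF.map hF.dd hF.ex hF.tmem hF.tex hF.tiff hH.ex hH.zero k i

/-- the counterexample to the second conjecture of Tachikawa, over `ℚ` -/
theorem not_tc2' (hI : S_IND) (hP : S_PRJ) (hF : S_FEX) (hH : S_HOM) (hS : S_SYM)
    (hN : S_XNP) : ¬ TachikawaConjectureTwo ℚ := by
  intro h
  obtain ⟨hfin, lam, -, hlam⟩ := hS
  obtain ⟨hX, hX'⟩ := hN
  have : FiniteDimensional ℚ T := hfin
  have hinj : Module.Injective T T := Run7.h692.frob_injective lam hlam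
  apply hX'
  refine h T hinj X fun i hi => ?_
  obtain ⟨j, rfl⟩ : ∃ j, i = j + 1 := ⟨i - 1, by omega⟩
  exact ext_zero hI hP hF hH 0 j

end Run7.h433.Nak
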