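/-
The counterexample to the second conjecture of Tachikawa: a symmetric algebra `T` of dimension 768
over `ℚ` and a non-projective `T`-module `X` of dimension 8 with `Ext^i (X, X) = 0` for all
`i ≥ 1`.
-/
import Pool.Agent.Run7.h433.Nak.Fin0
import Pool.Agent.Run7.h480.Nak.GRD
import Pool.Agent.Run7.h480.Nak.OPSY
import Pool.Agent.Run7.h305.Nak.KOS
import Pool.Agent.Run7.h305.Nak.SL2
import Pool.Agent.Run7.h305.Nak.VS
import Pool.Agent.Run7.h305.Nak.LWS
import Pool.Agent.Run7.h329.Nak.FEX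
import Pool.Agent.Run7.h696.Nak.PRJ
import Pool.Agent.Run7.h632.Nak.XCL2
import Pool.Agent.Run7.h632.Nak.THR
import Pool.Agent.Run7.h632.Nak.XKR
import Pool.Agent.Run7.h632.Nak.TST
import Pool.Agent.Run7.h229.Nak.SYM
import Pool.Agent.Run7.h102.Nak.HOM
import Pool.Agent.Run7.h329.Nak.IND
import Pool.Agent.Run7.h213.Nak.XNP

set_option autoImplicit false

open CategoryTheory
open Pool.Agent.Results.MP_5dc868_al.NakayamaEquivalent

namespace Run7.h433.Nak

theorem p_OPS : S_OPS := ops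
theorem p_OPSY : S_OPSY := H480.OPSY
theorem p_GRD : S_GRD := H480.GRD
theorem p_VS : S_VS := Run7.h305.VS.vs
theorem p_SL2 : S_SL2 := Run7.h305.SL2.sl2
theorem p_LWS : S_LWS := Run7.h305.LWS.lws
theorem p_KOS : S_KOS := Run7.h305.KOS.kos p_VS
theorem p_CEX : S_CEX := cex p_OPS p_GRD
theorem p_FEX : S_FEX := Run7.h329.Nak.FEX.main p_VS p_OPSY p_GRD p_CEX p_KOS
theorem p_TST : S_TST := Run7.h632.Nak.tst p_LWS
theorem p_PRJ : S_PRJ := t_PRJ p_TST p_VS
theorem p_SYM : S_SYM := Run7.h229.Nak.sym p_LWS p_TST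
theorem p_XRL : S_XRL := Run7.h632.Nak.xrl p_GRD p_VS
theorem p_THR : S_THR := Run7.h632.Nak.thr p_XRL
theorem p_XKR : S_XKR := Run7.h632.Nak.xkr p_XRL
theorem p_XCL : S_XCL := Run7.h632.Nak.xcl p_TST p_XKR p_XRL
theorem p_HOM : S_HOM := Run7.h102.Nak.hom p_XCL p_THR p_SL2 p_FEX.map p_VS

theorem p_IND : S_IND := Run7.h329.Nak.IND.main
theorem p_XNP : S_XNP := Run7.h213.Nak.xnp p_LWS p_TST p_XKR p_XRL p_VS

/-- all the modules `Yq k` (and `X = Yq 0`) satisfy `Ext^(i+1) (Yq k, X) = 0` -/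
theorem ext_Y (k i : ℕ) :
    Subsingleton (Abelian.Ext.{0} (ModuleCat.of T (Yq k)) (ModuleCat.of T X) (i + 1)) :=
  ext_zero p_IND p_PRJ p_FEX p_HOM k i

theorem ext_X (i : ℕ) :
    Subsingleton (Abelian.Ext.{0} (ModuleCat.of T X) (ModuleCat.of T X) (i + 1)) :=
  ext_Y 0 i

/-- The second conjecture of Tachikawa is false over `ℚ`. -/
theorem not_TC2 : ¬ TachikawaConjectureTwo ℚ :=
  not_tc2' p_IND p_PRJ p_FEX p_HOM p_SYM p_XNP

end Run7.h433.Nak
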